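import Mathlib.Algebra.BigOperators.Field
import Mathlib.Topology.Sheaves.Presheaf
import Mathlib.Data.Int.Star
import Mathlib.Algebra.Order.Ring.Star
import Mathlib.Algebra.Order.Star.Real
import Mathlib.Algebra.Ring.IsFormallyReal
import Mathlib.Analysis.Complex.ExponentialBounds
import Mathlib.RingTheory.PiTensorProduct
import Mathlib.NumberTheory.DiophantineApproximation.Basic
import Mathlib.Tactic.Algebra.Basic

-- ======== part 0: formerly Pool.Agent.MP_30e119_nt.G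
section MrgPart0

/-! The function `g` of Zagier and the defect `g a + g b - g c` of a Markov triple. -/

set_option autoImplicit false

namespace Pool.Agent.MP_30e119_nt

/-- The larger root of `X ^ 2 - 3 x X + 1`. -/
noncomputable def lam (x : ℝ) : ℝ := (3 * x + Real.sqrt (9 * x ^ 2 - 4)) / 2

/-- Zagier's function. -/
noncomputable def gg (x : ℝ) : ℝ := Real.log ((3 * x + Real.sqrt (9 * x ^ 2 - 4)) / 2)

theorem gg_eq (x : ℝ) : gg x = Real.log (lam x) := rfl

theorem lam_ge {x : ℝ} (hx : 1 ≤ x) : 13 / 5 * x ≤ lam x := by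
  have h : 11 / 5 * x ≤ Real.sqrt (9 * x ^ 2 - 4) := Real.le_sqrt_of_sq_le (by nlinarith)
  unfold lam; linarith

theorem lam_le {x : ℝ} (hx : 1 ≤ x) : lam x ≤ 3 * x := by
  have h : Real.sqrt (9 * x ^ 2 - 4) ≤ 3 * x := Real.sqrt_le_iff.2 ⟨by linarith, by nlinarith⟩
  unfold lam; linarith

theorem lam_pos {x : ℝ} (hx : 1 ≤ x) : 0 < lam x := by linarith [lam_ge hx]

theorem lam_mul {x : ℝ} (hx : 1 ≤ x) : lam x * (3 * x - lam x) = 1 := by
  have h : Real.sqrt (9 * x ^ 2 - 4) ^ 2 = 9 * x ^ 2 - 4 := Real.sq_sqrt (by nlinarith)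
  unfold lam; nlinarith

theorem lam_inv {x : ℝ} (hx : 1 ≤ x) : (lam x)⁻¹ = 3 * x - lam x :=
  inv_eq_of_mul_eq_one_right (lam_mul hx)

theorem exp_gg {x : ℝ} (hx : 1 ≤ x) : Real.exp (gg x) = lam x := Real.exp_log (lam_pos hx)

theorem lam_lt {x y : ℝ} (hx : 1 ≤ x) (h : x < y) : lam x < lam y := by
  have : Real.sqrt (9 * x ^ 2 - 4) ≤ Real.sqrt (9 * y ^ 2 - 4) :=
    Real.sqrt_le_sqrt (by nlinarith)
  unfold lam; linarith

theorem gg_lt {x y : ℝ} (hx : 1 ≤ x) (h : x < y) : gg x < gg y :=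
  Real.log_lt_log (lam_pos hx) (lam_lt hx h)

theorem gg_le {x y : ℝ} (hx : 1 ≤ x) (h : x ≤ y) : gg x ≤ gg y := by
  rcases h.lt_or_eq with h | rfl
  · exact (gg_lt hx h).le
  · exact le_rfl

theorem gg_le_iff {x y : ℝ} (hx : 1 ≤ x) (hy : 1 ≤ y) : gg x ≤ gg y ↔ x ≤ y :=
  ⟨fun h => not_lt.1 fun h' => absurd h (not_le.2 (gg_lt hy h')), gg_le hx⟩

theorem gg_le_log {x : ℝ} (hx : 1 ≤ x) : gg x ≤ Real.log (3 * x) :=
  Real.log_le_log (lam_pos hx) (lam_le hx)

theorem log_le_gg {x : ℝ} (hx : 1 ≤ x) : Real.log x ≤ gg x :=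
  Real.log_le_log (by linarith) (le_trans (by linarith) (lam_ge hx))

theorem gg_one_ge : 9 / 10 ≤ gg 1 := by
  rw [gg_eq, Real.le_log_iff_exp_le (lam_pos le_rfl)]
  have h1 := lam_ge (le_refl (1 : ℝ))
  have h2 : Real.exp (9 / 10) * Real.exp (1 / 10) = Real.exp 1 := by
    rw [← Real.exp_add]; norm_num
  have h3 := Real.exp_one_lt_d9
  have h4 : 1 / 10 + 1 ≤ Real.exp (1 / 10) := Real.add_one_le_exp _
  have h5 := Real.exp_pos (9 / 10)
  nlinarith

theorem gg_two_le : gg 2 ≤ 2 := by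
  rw [gg_eq, Real.log_le_iff_le_exp (lam_pos (by norm_num))]
  have h1 := lam_le (show (1 : ℝ) ≤ 2 by norm_num)
  have h2 : Real.exp 1 * Real.exp 1 = Real.exp 2 := by rw [← Real.exp_add]; norm_num
  have h3 := Real.exp_one_gt_d9
  nlinarith

theorem gg_ge {x : ℝ} (hx : 1 ≤ x) : 9 / 10 ≤ gg x := gg_one_ge.trans (gg_le le_rfl hx)

theorem gg_pos {x : ℝ} (hx : 1 ≤ x) : 0 < gg x := by linarith [gg_ge hx]

theorem log_sub_gg {x : ℝ} (hx : 1 ≤ x) : Real.log (3 * x) - gg x ≤ 1 / x := by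
  have h0 := lam_pos hx
  have h1 := lam_ge hx
  have h2 := lam_mul hx
  have h3 := lam_le hx
  rw [gg_eq, ← Real.log_div (by linarith) h0.ne']
  refine (Real.log_le_sub_one_of_pos (by positivity)).trans ?_
  rw [div_sub_one h0.ne', div_le_div_iff₀ h0 (by linarith)]
  nlinarith

theorem core_one {z c k : ℝ} (hc : 5 ≤ c) (hk : 0 < k) (h4 : 12 * k ≤ 5 * c) (h3 : c ≤ 3 * k)
    (hz : 6 * k ≤ z) (h : (z - 3 * c) * (z + 3 * c - 9 * k) = 4) :
    13 / 10 ≤ (z - 3 * c) * c ∧ (z - 3 * c) * c ≤ 16 / 9 ∧ z - 3 * c ≤ 9 / 125 * c := by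
  have hpos : 0 < z + 3 * c - 9 * k := by linarith
  have hd0 : 0 < z - 3 * c := by
    by_contra h'
    have := mul_nonpos_of_nonpos_of_nonneg (not_lt.1 h') hpos.le
    linarith
  have h1 : 9 / 4 * c ≤ z + 3 * c - 9 * k := by linarith
  have h2 : (z - 3 * c) * (9 / 4 * c) ≤ 4 :=
    (mul_le_mul_of_nonneg_left h1 hd0.le).trans h.le
  have hd1 : (z - 3 * c) * c ≤ 16 / 9 := by linarith
  have hd2 : z - 3 * c ≤ 9 / 125 * c := by
    by_contra h'
    have h5 : 9 / 125 * c * c ≤ (z - 3 * c) * c :=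
      mul_le_mul_of_nonneg_right (not_le.1 h').le (by linarith)
    nlinarith
  have h6 : z + 3 * c - 9 * k ≤ 384 / 125 * c := by linarith
  have h7 : 4 ≤ (z - 3 * c) * (384 / 125 * c) :=
    h.ge.trans (mul_le_mul_of_nonneg_left h6 hd0.le)
  exact ⟨by linarith, hd1, hd2⟩

theorem core_two {m m' n n' d : ℝ} (hmm : m * m' = 1) (hnn : n * n' = 1) (hm : 6 ≤ m)
    (hn : 13 ≤ n) (hd : d = m + m' - (n + n')) (hd0 : 0 < d) :
    d ≤ m - n ∧ m - n ≤ 78 / 77 * d := by
  have hm' : m' = m⁻¹ := (inv_eq_of_mul_eq_one_right hmm).symm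
  have hn' : n' = n⁻¹ := (inv_eq_of_mul_eq_one_right hnn).symm
  have h1 : 0 < m' := by rw [hm']; positivity
  have h2 : 0 < n' := by rw [hn']; positivity
  have h3 : m' ≤ 1 / 6 := by rw [hm', one_div]; exact inv_anti₀ (by norm_num) hm
  have h4 : n' ≤ 1 / 13 := by rw [hn', one_div]; exact inv_anti₀ (by norm_num) hn
  have h5 : m' * n' ≤ 1 / 6 * (1 / 13) := mul_le_mul h3 h4 h2.le (by norm_num)
  have h6 : 0 < m' * n' := mul_pos h1 h2
  have he : (m - n) * (1 - m' * n') = d := by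
    rw [hd]; linear_combination (-n') * hmm + m' * hnn
  have h7 : 0 < m - n := by
    by_contra h
    have := mul_nonpos_of_nonpos_of_nonneg (not_lt.1 h) (show 0 ≤ 1 - m' * n' by linarith)
    linarith
  constructor
  · nlinarith
  · nlinarith

theorem del_bounds {a b c : ℝ} (ha : 1 ≤ a) (hb : 1 ≤ b) (hc : 5 ≤ c)
    (h4 : 12 * a * b ≤ 5 * c) (eqn : a ^ 2 + b ^ 2 + c ^ 2 = 3 * a * b * c) :
    2 / 5 / c ^ 2 ≤ gg a + gg b - gg c ∧ gg a + gg b - gg c ≤ 3 / 4 / c ^ 2 := by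
  have hc1 : (1 : ℝ) ≤ c := by linarith
  have hcab : c ≤ 3 * (a * b) := by
    by_contra h
    have : 3 * (a * b) * c ≤ c * c := mul_le_mul_of_nonneg_right (not_le.1 h).le (by linarith)
    nlinarith
  have hp := lam_pos ha
  have hq := lam_pos hb
  have hn := lam_pos hc1
  have hlog : gg a + gg b - gg c = Real.log (lam a * lam b / lam c) := by
    rw [gg_eq, gg_eq, gg_eq, Real.log_div (mul_pos hp hq).ne' hn.ne', Real.log_mul hp.ne' hq.ne']
  have hp1 := lam_mul ha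
  have hq1 := lam_mul hb
  have hn1 := lam_mul hc1
  have hp2 := lam_ge ha
  have hq2 := lam_ge hb
  have hn2 := lam_ge hc1
  have hp3 := lam_le ha
  have hq3 := lam_le hb
  have hn3 := lam_le hc1
  generalize lam a = p at *
  generalize lam b = q at *
  generalize lam c = n at *
  obtain ⟨p', hp'⟩ : ∃ p', p' = 3 * a - p := ⟨_, rfl⟩
  obtain ⟨q', hq'⟩ : ∃ q', q' = 3 * b - q := ⟨_, rfl⟩
  rw [← hp'] at hp1
  rw [← hq'] at hq1
  have hmm : (p * q) * (p' * q') = 1 := by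
    calc (p * q) * (p' * q') = (p * p') * (q * q') := by ring
      _ = 1 := by rw [hp1, hq1]; ring
  have hm0 : 0 < p * q := mul_pos hp hq
  have hm'0 : 0 ≤ p' * q' := mul_nonneg (by linarith) (by linarith)
  have ha3 : 3 * a = p + p' := by rw [hp']; ring
  have hb3 : 3 * b = q + q' := by rw [hq']; ring
  have hid : (p * q + p' * q') ^ 2 - 9 * a * b * (p * q + p' * q') + 9 * a ^ 2 + 9 * b ^ 2 - 4
      = 0 := by
    have e1 : 9 * a * b = (p + p') * (q + q') := by rw [← ha3, ← hb3]; ring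
    have e2 : 9 * a ^ 2 = (p + p') ^ 2 := by rw [← ha3]; ring
    have e3 : 9 * b ^ 2 = (q + q') ^ 2 := by rw [← hb3]; ring
    rw [e1, e2, e3]
    linear_combination (-(q ^ 2) - q' ^ 2 + 2) * hp1 + (-(p ^ 2) - p' ^ 2 + 2) * hq1
  have hab : 1 ≤ a * b := one_le_mul_of_one_le_of_one_le ha hb
  have hm2 : 6 * (a * b) ≤ p * q := by
    have := mul_le_mul hp2 hq2 (by positivity) hp.le
    linarith
  obtain ⟨h1, h2, h3⟩ := core_one (z := p * q + p' * q') (k := a * b) hc (by linarith)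
    (by linarith) hcab (by linarith) (by linear_combination hid - 9 * eqn)
  have hd0 : 0 < p * q + p' * q' - 3 * c := by
    by_contra h
    have := mul_nonpos_of_nonpos_of_nonneg (not_lt.1 h) (show 0 ≤ c by linarith)
    linarith
  obtain ⟨h5, h6⟩ := core_two (d := p * q + p' * q' - 3 * c) hmm hn1 (by linarith) (by linarith)
    (by ring) hd0
  have hc2 : 0 < c ^ 2 := by positivity
  rw [hlog]
  generalize p * q = m at *
  generalize p' * q' = m' at *
  constructor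
  · refine le_trans ?_ (Real.one_sub_inv_le_log_of_pos (div_pos hm0 hn))
    rw [inv_div, one_sub_div hm0.ne', div_le_div_iff₀ hc2 hm0]
    have h11 : m ≤ 384 / 125 * c := by linarith
    have h12 : (m + m' - 3 * c) * c ^ 2 ≤ (m - n) * c ^ 2 := mul_le_mul_of_nonneg_right h5 hc2.le
    have h13 : 13 / 10 * c ≤ (m + m' - 3 * c) * c * c :=
      mul_le_mul_of_nonneg_right h1 (by linarith)
    nlinarith
  · refine (Real.log_le_sub_one_of_pos (div_pos hm0 hn)).trans ?_
    rw [div_sub_one hn.ne', div_le_div_iff₀ hn hc2]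
    have h12 : (m - n) * c ^ 2 ≤ 78 / 77 * (m + m' - 3 * c) * c ^ 2 :=
      mul_le_mul_of_nonneg_right h6 hc2.le
    have h13 : (m + m' - 3 * c) * c * c ≤ 16 / 9 * c :=
      mul_le_mul_of_nonneg_right h2 (by linarith)
    nlinarith

end Pool.Agent.MP_30e119_nt

end MrgPart0

-- ======== part 1: formerly Pool.Agent.MP_30e119_nt.Node
section MrgPart1

/-! The Markov tree with its Farey vectors. -/

set_option autoImplicit false

open Finset

namespace Pool.Agent.MP_30e119_nt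

/-- A vertex of the Markov tree: an oriented Markov triple with the two Farey vectors. -/
structure Node where
  a : ℕ
  b : ℕ
  c : ℕ
  v1 : ℕ
  v2 : ℕ
  w1 : ℕ
  w2 : ℕ
  ha : 1 ≤ a
  hb : 1 ≤ b
  hne : a ≠ b
  h4 : 12 * a * b ≤ 5 * c
  eqn : a ^ 2 + b ^ 2 + c ^ 2 = 3 * a * b * c
  det : v1 * w2 = v2 * w1 + 1
  sv : v1 + v2 ≤ a
  sw : w1 + w2 ≤ b
  s_lo : 1 / 2 + 2 / (c : ℝ) ≤ w2 * gg a - v2 * gg b
  s_hi : w2 * gg a - v2 * gg b + 2 / (c : ℝ) ≤ 5 / 2
  r_lo : 1 / 2 + 2 / (c : ℝ) ≤ v1 * gg b - w1 * gg a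
  r_hi : v1 * gg b - w1 * gg a + 2 / (c : ℝ) ≤ 5 / 2

namespace Node

variable (n : Node)

theorem two_a : 2 * n.a ≤ n.c := by have := n.h4; have := n.hb; nlinarith
theorem two_b : 2 * n.b ≤ n.c := by have := n.h4; have := n.ha; nlinarith

theorem five_le : 5 ≤ n.c := by
  have h1 := n.h4; have h2 := n.ha; have h3 := n.hb; have h4 := n.hne
  have : 2 ≤ n.a * n.b := by
    rcases Nat.lt_or_gt_of_ne h4 with h | h <;> nlinarith
  nlinarith

theorem c_le : n.c ≤ 3 * n.a * n.b := by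
  have h1 := n.eqn; have h2 := n.ha; have h3 := n.five_le
  by_contra h
  push Not at h
  nlinarith

theorem ra : (1 : ℝ) ≤ n.a := by exact_mod_cast n.ha
theorem rb : (1 : ℝ) ≤ n.b := by exact_mod_cast n.hb
theorem rc : (5 : ℝ) ≤ n.c := by exact_mod_cast n.five_le
theorem rc1 : (1 : ℝ) ≤ n.c := by linarith [n.rc]
theorem rc0 : (0 : ℝ) < n.c := by linarith [n.rc]

/-- Lengths of the two Farey vectors and of their sum. -/
noncomputable def A : ℝ := gg n.a
noncomputable def B : ℝ := gg n.b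
noncomputable def G : ℝ := gg n.c
/-- The defect. -/
noncomputable def del : ℝ := n.A + n.B - n.G
/-- Coefficients of the chord functional in the coordinates of the root. -/
noncomputable def s : ℝ := n.w2 * n.A - n.v2 * n.B
noncomputable def r : ℝ := n.v1 * n.B - n.w1 * n.A

theorem A_ge : 9 / 10 ≤ n.A := gg_ge n.ra
theorem B_ge : 9 / 10 ≤ n.B := gg_ge n.rb
theorem A_pos : 0 < n.A := gg_pos n.ra
theorem B_pos : 0 < n.B := gg_pos n.rb
theorem G_pos : 0 < n.G := gg_pos n.rc1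

theorem del_bd : 2 / 5 / (n.c : ℝ) ^ 2 ≤ n.del ∧ n.del ≤ 3 / 4 / (n.c : ℝ) ^ 2 :=
  del_bounds n.ra n.rb n.rc (by exact_mod_cast n.h4) (by exact_mod_cast n.eqn)

theorem del_pos : 0 < n.del := lt_of_lt_of_le (by have := n.rc0; positivity) n.del_bd.1

theorem G_ge : 1 ≤ n.G := by
  have h1 := n.del_bd.2
  have h2 : 3 / 4 / (n.c : ℝ) ^ 2 ≤ 3 / 4 / 5 ^ 2 := by have := n.rc; gcongr
  have := n.A_ge; have := n.B_ge
  unfold del at h1
  linarith

theorem drift_aux {k c' : ℝ} (hk0 : 0 ≤ k) (hk : k ≤ n.c) (hc' : 2 * (n.c : ℝ) ≤ c') :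
    0 ≤ k * n.del ∧ k * n.del + 2 / c' ≤ 2 / (n.c : ℝ) := by
  have h0 := n.rc0
  refine ⟨mul_nonneg hk0 n.del_pos.le, ?_⟩
  have h1 : k * n.del ≤ n.c * (3 / 4 / (n.c : ℝ) ^ 2) :=
    mul_le_mul hk n.del_bd.2 n.del_pos.le h0.le
  have h2 : 2 / c' ≤ 2 / (2 * (n.c : ℝ)) := by gcongr
  have h3 : n.c * (3 / 4 / (n.c : ℝ) ^ 2) = 3 / 4 * (1 / n.c) := by field_simp
  have h4 : 2 / (2 * (n.c : ℝ)) = 1 / n.c := by field_simp
  have h5 : 2 / (n.c : ℝ) = 2 * (1 / n.c) := by field_simp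
  have h6 : 0 < 1 / (n.c : ℝ) := by positivity
  linarith

theorem cL_add : 3 * n.a * n.c - n.b + n.b = 3 * n.a * n.c :=
  Nat.sub_add_cancel (by have := n.two_b; have := n.ha; nlinarith)
theorem cR_add : 3 * n.b * n.c - n.a + n.a = 3 * n.b * n.c :=
  Nat.sub_add_cancel (by have := n.two_a; have := n.hb; nlinarith)
theorem cL_ge : 2 * n.c ≤ 3 * n.a * n.c - n.b := by
  have := n.cL_add; have := n.two_b; have := n.ha; nlinarith
theorem cR_ge : 2 * n.c ≤ 3 * n.b * n.c - n.a := by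
  have := n.cR_add; have := n.two_a; have := n.hb; nlinarith

theorem cL_ge' : 2 * (n.c : ℝ) ≤ ((3 * n.a * n.c - n.b : ℕ) : ℝ) := by exact_mod_cast n.cL_ge
theorem cR_ge' : 2 * (n.c : ℝ) ≤ ((3 * n.b * n.c - n.a : ℕ) : ℝ) := by exact_mod_cast n.cR_ge

theorem v1_le : (n.v1 : ℝ) ≤ n.c := by
  have := n.sv; have := n.two_a; exact_mod_cast (show n.v1 ≤ n.c by omega)
theorem v2_le : (n.v2 : ℝ) ≤ n.c := by
  have := n.sv; have := n.two_a; exact_mod_cast (show n.v2 ≤ n.c by omega)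
theorem w1_le : (n.w1 : ℝ) ≤ n.c := by
  have := n.sw; have := n.two_b; exact_mod_cast (show n.w1 ≤ n.c by omega)
theorem w2_le : (n.w2 : ℝ) ≤ n.c := by
  have := n.sw; have := n.two_b; exact_mod_cast (show n.w2 ≤ n.c by omega)

/-- The left child. -/
def L : Node where
  a := n.a
  b := n.c
  c := 3 * n.a * n.c - n.b
  v1 := n.v1
  v2 := n.v2
  w1 := n.v1 + n.w1
  w2 := n.v2 + n.w2
  ha := n.ha
  hb := by have := n.five_le; omega
  hne := by have := n.two_a; have := n.ha; omega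
  h4 := by have := n.cL_add; have := n.two_b; have := n.ha; nlinarith
  eqn := by
    have h1 := n.cL_add; have h2 := n.eqn
    generalize 3 * n.a * n.c - n.b = z at h1
    zify at h1 h2 ⊢
    linear_combination h2 + (z - n.b) * h1
  det := by have := n.det; nlinarith
  sv := n.sv
  sw := by have := n.sv; have := n.sw; have := n.two_a; have := n.two_b; omega
  s_lo := by
    have h := n.drift_aux (Nat.cast_nonneg _) n.v2_le n.cL_ge'
    have := n.s_lo
    simp only [del, A, B, G] at h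
    rw [Nat.cast_add]
    have h0 : (0 : ℝ) ≤ 2 / ((3 * n.a * n.c - n.b : ℕ) : ℝ) := by positivity
    linarith [h.1, h.2]
  s_hi := by
    have h := n.drift_aux (Nat.cast_nonneg _) n.v2_le n.cL_ge'
    have := n.s_hi
    simp only [del, A, B, G] at h
    rw [Nat.cast_add]
    linarith [h.1, h.2]
  r_lo := by
    have h := n.drift_aux (Nat.cast_nonneg _) n.v1_le n.cL_ge'
    have := n.r_lo
    simp only [del, A, B, G] at h
    rw [Nat.cast_add]
    linarith [h.1, h.2]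
  r_hi := by
    have h := n.drift_aux (Nat.cast_nonneg _) n.v1_le n.cL_ge'
    have := n.r_hi
    simp only [del, A, B, G] at h
    rw [Nat.cast_add]
    linarith [h.1, h.2]

/-- The right child. -/
def R : Node where
  a := n.c
  b := n.b
  c := 3 * n.b * n.c - n.a
  v1 := n.v1 + n.w1
  v2 := n.v2 + n.w2
  w1 := n.w1
  w2 := n.w2
  ha := by have := n.five_le; omega
  hb := n.hb
  hne := by have := n.two_b; have := n.hb; omega
  h4 := by have := n.cR_add; have := n.two_a; have := n.hb; nlinarith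
  eqn := by
    have h1 := n.cR_add; have h2 := n.eqn
    generalize 3 * n.b * n.c - n.a = z at h1
    zify at h1 h2 ⊢
    linear_combination h2 + (z - n.a) * h1
  det := by have := n.det; nlinarith
  sv := by have := n.sv; have := n.sw; have := n.two_a; have := n.two_b; omega
  sw := n.sw
  s_lo := by
    have h := n.drift_aux (Nat.cast_nonneg _) n.w2_le n.cR_ge'
    have := n.s_lo
    simp only [del, A, B, G] at h
    rw [Nat.cast_add]
    linarith [h.1, h.2]
  s_hi := by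
    have h := n.drift_aux (Nat.cast_nonneg _) n.w2_le n.cR_ge'
    have := n.s_hi
    simp only [del, A, B, G] at h
    rw [Nat.cast_add]
    linarith [h.1, h.2]
  r_lo := by
    have h := n.drift_aux (Nat.cast_nonneg _) n.w1_le n.cR_ge'
    have := n.r_lo
    simp only [del, A, B, G] at h
    rw [Nat.cast_add]
    linarith [h.1, h.2]
  r_hi := by
    have h := n.drift_aux (Nat.cast_nonneg _) n.w1_le n.cR_ge'
    have := n.r_hi
    simp only [del, A, B, G] at h
    rw [Nat.cast_add]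
    linarith [h.1, h.2]

end Node

/-- The root of the tree. -/
def root : Node where
  a := 1
  b := 2
  c := 5
  v1 := 1
  v2 := 0
  w1 := 0
  w2 := 1
  ha := le_rfl
  hb := by norm_num
  hne := by norm_num
  h4 := by norm_num
  eqn := by norm_num
  det := by norm_num
  sv := by norm_num
  sw := by norm_num
  s_lo := by have := gg_one_ge; norm_num; linarith
  s_hi := by
    have := gg_two_le; have := gg_le (le_refl (1 : ℝ)) (show (1 : ℝ) ≤ 2 by norm_num)
    norm_num; linarith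
  r_lo := by have := gg_ge (show (1 : ℝ) ≤ 2 by norm_num); norm_num; linarith
  r_hi := by have := gg_two_le; norm_num; linarith

namespace Node

variable (n : Node)

theorem L_c : 2 * n.c ≤ n.L.c := n.cL_ge
theorem R_c : 2 * n.c ≤ n.R.c := n.cR_ge
theorem L_rc : 2 * (n.c : ℝ) ≤ n.L.c := by exact_mod_cast n.L_c
theorem R_rc : 2 * (n.c : ℝ) ≤ n.R.c := by exact_mod_cast n.R_c
theorem big_child : 5 * n.c ≤ n.L.c ∨ 5 * n.c ≤ n.R.c := by
  have h1 := n.cL_add; have h2 := n.cR_add; have := n.two_a; have := n.two_b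
  have := n.ha; have := n.hb
  rcases Nat.lt_or_gt_of_ne n.hne with h | h
  · right; change 5 * n.c ≤ 3 * n.b * n.c - n.a; nlinarith
  · left; change 5 * n.c ≤ 3 * n.a * n.c - n.b; nlinarith

@[simp] theorem L_A : n.L.A = n.A := rfl
@[simp] theorem L_B : n.L.B = n.G := rfl
@[simp] theorem R_A : n.R.A = n.G := rfl
@[simp] theorem R_B : n.R.B = n.B := rfl

theorem L_s : n.L.s = n.s + n.v2 * n.del := by
  simp only [s, del, L_A, L_B]; simp only [L]; push_cast; ring
theorem L_r : n.L.r = n.r - n.v1 * n.del := by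
  simp only [r, del, L_A, L_B]; simp only [L]; push_cast; ring
theorem R_s : n.R.s = n.s - n.w2 * n.del := by
  simp only [s, del, R_A, R_B]; simp only [R]; push_cast; ring
theorem R_r : n.R.r = n.r + n.w1 * n.del := by
  simp only [r, del, R_A, R_B]; simp only [R]; push_cast; ring

theorem s_bd : 1 / 2 ≤ n.s ∧ n.s ≤ 5 / 2 := by
  have h1 := n.s_lo; have h2 := n.s_hi
  have h3 : 0 ≤ 2 / (n.c : ℝ) := by positivity
  unfold s A B
  constructor <;> linarith

theorem r_bd : 1 / 2 ≤ n.r ∧ n.r ≤ 5 / 2 := by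
  have h1 := n.r_lo; have h2 := n.r_hi
  have h3 : 0 ≤ 2 / (n.c : ℝ) := by positivity
  unfold r A B
  constructor <;> linarith

theorem rdet : (n.v1 : ℝ) * n.w2 = n.v2 * n.w1 + 1 := by exact_mod_cast n.det

theorem A_eq : n.A = n.v1 * n.s + n.v2 * n.r := by
  unfold s r; linear_combination (-n.A) * n.rdet
theorem B_eq : n.B = n.w1 * n.s + n.w2 * n.r := by
  unfold s r; linear_combination (-n.B) * n.rdet

/-- Induction down to the level `M`. -/
theorem ind (M : ℕ) {P : Node → Prop} (hleaf : ∀ n, M < n.c → P n)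
    (hstep : ∀ n, n.c ≤ M → P n.L → P n.R → P n) (n : Node) : P n := by
  induction h : M + 1 - n.c using Nat.strong_induction_on generalizing n with
  | _ k ih =>
    rcases lt_or_ge M n.c with h1 | h1
    · exact hleaf n h1
    · have h2 := n.L_c; have h3 := n.R_c; have h4 := n.five_le
      exact hstep n h1 (ih _ (by omega) _ rfl) (ih _ (by omega) _ rfl)

/-- Descendants. -/
inductive Desc : Node → Node → Prop
  | refl (n : Node) : Desc n n
  | left {n m : Node} : Desc n.L m → Desc n m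
  | right {n m : Node} : Desc n.R m → Desc n m

theorem Desc.drift {n m : Node} (h : Desc n m) :
    |m.s - n.s| + 2 / (m.c : ℝ) ≤ 2 / (n.c : ℝ) ∧ |m.r - n.r| + 2 / (m.c : ℝ) ≤ 2 / (n.c : ℝ) := by
  induction h with
  | refl n => simp
  | @left n m _ ih =>
    have h1 := n.drift_aux (Nat.cast_nonneg _) n.v2_le n.L_rc
    have h2 := n.drift_aux (Nat.cast_nonneg _) n.v1_le n.L_rc
    rw [L_s, L_r] at ih
    constructor
    · have := abs_add_le (m.s - (n.s + n.v2 * n.del)) (n.v2 * n.del)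
      rw [abs_of_nonneg h1.1, show m.s - (n.s + n.v2 * n.del) + n.v2 * n.del = m.s - n.s by ring]
        at this
      linarith [ih.1, h1.2]
    · have := abs_sub (m.r - (n.r - n.v1 * n.del)) (n.v1 * n.del)
      rw [abs_of_nonneg h2.1, show m.r - (n.r - n.v1 * n.del) - n.v1 * n.del = m.r - n.r by ring]
        at this
      linarith [ih.2, h2.2]
  | @right n m _ ih =>
    have h1 := n.drift_aux (Nat.cast_nonneg _) n.w2_le n.R_rc
    have h2 := n.drift_aux (Nat.cast_nonneg _) n.w1_le n.R_rc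
    rw [R_s, R_r] at ih
    constructor
    · have := abs_sub (m.s - (n.s - n.w2 * n.del)) (n.w2 * n.del)
      rw [abs_of_nonneg h1.1, show m.s - (n.s - n.w2 * n.del) - n.w2 * n.del = m.s - n.s by ring]
        at this
      linarith [ih.1, h1.2]
    · have := abs_add_le (m.r - (n.r + n.w1 * n.del)) (n.w1 * n.del)
      rw [abs_of_nonneg h2.1, show m.r - (n.r + n.w1 * n.del) + n.w1 * n.del = m.r - n.r by ring]
        at this
      linarith [ih.2, h2.2]

/-- The chord functional on the vector `(-X, Y)`. -/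
noncomputable def ell (X Y : ℝ) : ℝ := Y * n.r - X * n.s
/-- Absolute values of the coordinates of `(-X, Y)` in the basis of the node. -/
noncomputable def cx (X Y : ℝ) : ℝ := X * n.w2 + Y * n.w1
noncomputable def cy (X Y : ℝ) : ℝ := X * n.v2 + Y * n.v1

theorem ell_eq (X Y : ℝ) : n.ell X Y = n.cy X Y * n.B - n.cx X Y * n.A := by
  unfold ell cx cy r s; ring

theorem L_ell (X Y : ℝ) : n.L.ell X Y = n.ell X Y - n.cy X Y * n.del := by
  unfold ell cy; rw [L_r, L_s]; ring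
theorem R_ell (X Y : ℝ) : n.R.ell X Y = n.ell X Y + n.cx X Y * n.del := by
  unfold ell cx; rw [R_r, R_s]; ring
theorem L_cx (X Y : ℝ) : n.L.cx X Y = n.cx X Y + n.cy X Y := by
  simp only [cx, cy, L]; push_cast; ring
theorem L_cy (X Y : ℝ) : n.L.cy X Y = n.cy X Y := rfl
theorem R_cx (X Y : ℝ) : n.R.cx X Y = n.cx X Y := rfl
theorem R_cy (X Y : ℝ) : n.R.cy X Y = n.cx X Y + n.cy X Y := by
  simp only [cx, cy, R]; push_cast; ring

theorem cx_nonneg {X Y : ℝ} (hX : 0 ≤ X) (hY : 0 ≤ Y) : 0 ≤ n.cx X Y := by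
  unfold cx; positivity
theorem cy_nonneg {X Y : ℝ} (hX : 0 ≤ X) (hY : 0 ≤ Y) : 0 ≤ n.cy X Y := by
  unfold cy; positivity

theorem env_aux {c' : ℝ} (hc' : 2 * (n.c : ℝ) ≤ c') :
    1 / c' ^ 2 ≤ n.del ∧ n.del + 1 / c' ^ 2 ≤ 1 / (n.c : ℝ) ^ 2 := by
  have h0 := n.rc0
  have h1 : 1 / c' ^ 2 ≤ 1 / (2 * (n.c : ℝ)) ^ 2 := by gcongr
  have h2 : 1 / (2 * (n.c : ℝ)) ^ 2 = 1 / 4 * (1 / (n.c : ℝ) ^ 2) := by field_simp; norm_num
  have h3 := n.del_bd
  have h4 : 2 / 5 / (n.c : ℝ) ^ 2 = 2 / 5 * (1 / (n.c : ℝ) ^ 2) := by field_simp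
  have h5 : 3 / 4 / (n.c : ℝ) ^ 2 = 3 / 4 * (1 / (n.c : ℝ) ^ 2) := by field_simp
  have h6 : 0 < 1 / (n.c : ℝ) ^ 2 := by positivity
  constructor <;> linarith [h3.1, h3.2]

theorem Desc.env {n m : Node} (h : Desc n m) {X Y : ℝ} (hX : 0 ≤ X) (hY : 0 ≤ Y) :
    m.ell X Y ≤ n.ell X Y + n.cx X Y * (1 / (n.c : ℝ) ^ 2) ∧
      n.ell X Y - n.cy X Y * (1 / (n.c : ℝ) ^ 2) ≤ m.ell X Y := by
  induction h with
  | refl n =>
    have h1 := n.cx_nonneg hX hY; have h2 := n.cy_nonneg hX hY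
    constructor
    · have : 0 ≤ n.cx X Y * (1 / (n.c : ℝ) ^ 2) := by positivity
      linarith
    · have : 0 ≤ n.cy X Y * (1 / (n.c : ℝ) ^ 2) := by positivity
      linarith
  | @left n m _ ih =>
    have h1 := n.cx_nonneg hX hY; have h2 := n.cy_nonneg hX hY
    obtain ⟨h3, h4⟩ := n.env_aux n.L_rc
    have h5 := n.del_pos
    rw [L_ell, L_cx, L_cy] at ih
    constructor
    · nlinarith [ih.1, mul_le_mul_of_nonneg_left h3 h2, mul_le_mul_of_nonneg_left h4 h1,
        mul_nonneg h1 h5.le]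
    · nlinarith [ih.2, mul_le_mul_of_nonneg_left h4 h2]
  | @right n m _ ih =>
    have h1 := n.cx_nonneg hX hY; have h2 := n.cy_nonneg hX hY
    obtain ⟨h3, h4⟩ := n.env_aux n.R_rc
    have h5 := n.del_pos
    rw [R_ell, R_cx, R_cy] at ih
    constructor
    · nlinarith [ih.1, mul_le_mul_of_nonneg_left h4 h1]
    · nlinarith [ih.2, mul_le_mul_of_nonneg_left h3 h1, mul_le_mul_of_nonneg_left h4 h2,
        mul_nonneg h2 h5.le]

theorem one_le_v : 1 ≤ n.v1 := by
  have := n.det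
  rcases Nat.eq_zero_or_pos n.v1 with h | h
  · rw [h] at this; omega
  · exact h

theorem one_le_w : 1 ≤ n.w2 := by
  have := n.det
  rcases Nat.eq_zero_or_pos n.w2 with h | h
  · rw [h] at this; omega
  · exact h

/-- The corner lemma. -/
theorem corner {m m' : Node} (h : Desc n.L m) (h' : Desc n.R m') {X Y : ℝ} (hX : 1 ≤ X)
    (hY : 1 ≤ Y) : 1 / 5 / (n.c : ℝ) ^ 2 ≤ m'.ell X Y - m.ell X Y := by
  have hX0 : 0 ≤ X := by linarith
  have hY0 : 0 ≤ Y := by linarith
  have h1 := (h.env hX0 hY0).1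
  have h2 := (h'.env hX0 hY0).2
  rw [L_ell, L_cx] at h1
  rw [R_ell, R_cy] at h2
  have h0 := n.rc0
  have h3 : 2 ≤ n.cx X Y + n.cy X Y := by
    have e1 : (1 : ℝ) ≤ n.v1 := by exact_mod_cast n.one_le_v
    have e2 : (1 : ℝ) ≤ n.w2 := by exact_mod_cast n.one_le_w
    have e3 : (0 : ℝ) ≤ Y * n.w1 := by positivity
    have e4 : (0 : ℝ) ≤ X * n.v2 := by positivity
    unfold cx cy
    nlinarith
  have h4 : 1 / (n.L.c : ℝ) ^ 2 + 1 / (n.R.c : ℝ) ^ 2 ≤ 29 / 100 * (1 / (n.c : ℝ) ^ 2) := by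
    have e1 : 1 / (2 * (n.c : ℝ)) ^ 2 + 1 / (5 * (n.c : ℝ)) ^ 2 =
        29 / 100 * (1 / (n.c : ℝ) ^ 2) := by field_simp; norm_num
    have e2 := n.L_rc
    have e3 := n.R_rc
    rcases n.big_child with e | e
    · have e' : 5 * (n.c : ℝ) ≤ n.L.c := by exact_mod_cast e
      rw [← e1, add_comm]; gcongr
    · have e' : 5 * (n.c : ℝ) ≤ n.R.c := by exact_mod_cast e
      rw [← e1]; gcongr
  have h5 := n.del_bd.1
  have h6 : 2 / 5 / (n.c : ℝ) ^ 2 = 2 / 5 * (1 / (n.c : ℝ) ^ 2) := by field_simp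
  have h7 : 1 / 5 / (n.c : ℝ) ^ 2 = 1 / 5 * (1 / (n.c : ℝ) ^ 2) := by field_simp
  have h8 : 0 < 1 / (n.c : ℝ) ^ 2 := by positivity
  have h9 : 1 / 10 * (1 / (n.c : ℝ) ^ 2) ≤
      n.del - 1 / (n.L.c : ℝ) ^ 2 - 1 / (n.R.c : ℝ) ^ 2 := by linarith
  have h10 := mul_le_mul h3 h9 (by positivity) (by linarith)
  rw [h7]
  nlinarith

end Node

end Pool.Agent.MP_30e119_nt

end MrgPart1

-- ======== part 2: formerly Pool.Agent.MP_30e119_nt.Triangle
section MrgPart2

/-! Lattice points in a right triangle. -/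

set_option autoImplicit false

open Finset

namespace Pool.Agent.MP_30e119_nt

theorem fract_block (q : ℕ) (hq : 1 ≤ q) (p : ℤ) (hpq : IsCoprime p q) (σ : ℝ) :
    ∑ j ∈ range q, Int.fract (σ + j * (p / q : ℝ)) = Int.fract (q * σ) + (q - 1) / 2 := by
  have hq0 : (0 : ℝ) < q := by exact_mod_cast hq
  have hqz : (0 : ℤ) < q := by exact_mod_cast hq
  set m : ℤ := ⌊q * σ⌋ with hm
  set f : ℝ := Int.fract (q * σ) with hf
  have hf0 : 0 ≤ f := Int.fract_nonneg _
  have hf1 : f < 1 := Int.fract_lt_one _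
  have hσ : σ = (m + f) / q := by
    rw [eq_div_iff hq0.ne', hm, hf, Int.floor_add_fract, mul_comm]
  let e : ℕ → ℕ := fun j => ((m + j * p) % q).toNat
  have he : ∀ j, (e j : ℤ) = (m + j * p) % q := fun j =>
    Int.toNat_of_nonneg (Int.emod_nonneg _ hqz.ne')
  have helt : ∀ j, e j < q := fun j => by
    have := Int.emod_lt_of_pos (m + j * p) hqz
    have := he j
    omega
  have h1 : ∀ j : ℕ, Int.fract (σ + j * (p / q : ℝ)) = (e j + f) / q := by
    intro j
    rw [Int.fract_eq_iff]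
    refine ⟨by positivity, ?_, (m + j * p) / q, ?_⟩
    · rw [div_lt_one hq0]
      have : (e j : ℝ) + 1 ≤ q := by exact_mod_cast helt j
      linarith
    · have h2 : (q : ℤ) * ((m + j * p) / q) + e j = m + j * p := by
        rw [he]; exact Int.mul_ediv_add_emod _ _
      have h3 : (q : ℝ) * (((m + j * p) / q : ℤ) : ℝ) + e j = m + j * p := by exact_mod_cast h2
      rw [hσ]
      field_simp
      linarith
  have hinj : Set.InjOn e (range q : Set ℕ) := by
    intro i hi j hj hij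
    have h2 : (m + i * p) % q = (m + j * p) % q := by rw [← he, ← he, hij]
    have h3 : (q : ℤ) ∣ (j - i) * p := by
      have := Int.ModEq.dvd h2
      convert this using 1
      ring
    have h4 : (q : ℤ) ∣ (j : ℤ) - i := hpq.symm.dvd_of_dvd_mul_right h3
    have hi' : i < q := mem_range.1 hi
    have hj' : j < q := mem_range.1 hj
    have := Int.eq_zero_of_abs_lt_dvd h4 (by rw [abs_lt]; constructor <;> omega)
    omega
  have himg : (range q).image e = range q := by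
    refine eq_of_subset_of_card_le (fun x hx => ?_) ?_
    · obtain ⟨j, -, rfl⟩ := mem_image.1 hx
      exact mem_range.2 (helt j)
    · rw [card_image_of_injOn hinj]
  have h5 : ∑ j ∈ range q, (e j : ℝ) = ∑ j ∈ range q, (j : ℝ) := by
    conv_rhs => rw [← himg, sum_image hinj]
  have h6 : ∑ j ∈ range q, (j : ℝ) = q * (q - 1) / 2 := by
    clear * -
    induction q with
    | zero => simp
    | succ n ih => rw [sum_range_succ, ih]; push_cast; ring
  simp_rw [h1]
  rw [← sum_div, sum_add_distrib, h5, h6, sum_const, card_range, nsmul_eq_mul]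
  field_simp
  ring

theorem saw_block (q : ℕ) (hq : 1 ≤ q) (p : ℤ) (hpq : IsCoprime p q) (θ τ : ℝ)
    (h : |θ - p / q| ≤ 1 / (q : ℝ) ^ 2) :
    |∑ j ∈ range q, (Int.fract (τ + j * θ) - 1 / 2)| ≤ 5 / 2 := by
  have hq0 : (0 : ℝ) < q := by exact_mod_cast hq
  have hd : ∀ j ∈ range q, |(j : ℝ) * θ - j * (p / q : ℝ)| ≤ 1 / q := by
    intro j hj
    have hj' : (j : ℝ) ≤ q := by exact_mod_cast (mem_range.1 hj).le
    rw [← mul_sub, abs_mul, Nat.abs_cast]
    calc (j : ℝ) * |θ - p / q| ≤ q * (1 / (q : ℝ) ^ 2) := by gcongr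
      _ = 1 / q := by field_simp
  have hlo : ∀ j ∈ range q,
      Int.fract (τ + 1 / q + j * (p / q : ℝ)) - 2 / q ≤ Int.fract (τ + j * θ) := by
    intro j hj
    have h1 := abs_le.1 (hd j hj)
    have h2 : (⌊τ + j * θ⌋ : ℝ) ≤ ⌊τ + 1 / q + j * (p / q : ℝ)⌋ :=
      Int.cast_le.2 (Int.floor_le_floor (by linarith))
    have h3 : (2 : ℝ) / q = 1 / q + 1 / q := by ring
    rw [Int.fract, Int.fract]
    linarith
  have hhi : ∀ j ∈ range q,
      Int.fract (τ + j * θ) ≤ Int.fract (τ - 1 / q + j * (p / q : ℝ)) + 2 / q := by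
    intro j hj
    have h1 := abs_le.1 (hd j hj)
    have h2 : (⌊τ - 1 / q + j * (p / q : ℝ)⌋ : ℝ) ≤ ⌊τ + j * θ⌋ :=
      Int.cast_le.2 (Int.floor_le_floor (by linarith))
    have h3 : (2 : ℝ) / q = 1 / q + 1 / q := by ring
    rw [Int.fract, Int.fract]
    linarith
  have h1 := sum_le_sum hlo
  have h2 := sum_le_sum hhi
  have h3 : (q : ℝ) * (2 / q) = 2 := by field_simp
  rw [sum_sub_distrib, fract_block q hq p hpq, sum_const, card_range, nsmul_eq_mul, h3] at h1
  rw [sum_add_distrib, fract_block q hq p hpq, sum_const, card_range, nsmul_eq_mul, h3] at h2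
  rw [sum_sub_distrib, sum_const, card_range, nsmul_eq_mul, abs_le]
  have h4 := Int.fract_nonneg (q * (τ + 1 / q))
  have h5 := Int.fract_lt_one (q * (τ - 1 / q))
  constructor <;> linarith

theorem saw (q : ℕ) (hq : 1 ≤ q) (p : ℤ) (hpq : IsCoprime p q) (θ : ℝ)
    (h : |θ - p / q| ≤ 1 / (q : ℝ) ^ 2) (Y : ℕ) (τ : ℝ) :
    |∑ j ∈ range Y, (Int.fract (τ + j * θ) - 1 / 2)| ≤ 5 / 2 * (Y / q) + q / 2 := by
  have hq0 : (0 : ℝ) < q := by exact_mod_cast hq
  induction Y using Nat.strong_induction_on generalizing τ with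
  | _ Y ih =>
    rcases lt_or_ge Y q with hY | hY
    · refine (abs_sum_le_sum_abs _ _).trans ?_
      have h1 : ∀ j ∈ range Y, |Int.fract (τ + j * θ) - 1 / 2| ≤ 1 / 2 := fun j _ => by
        have h4 := Int.fract_nonneg (τ + j * θ)
        have h5 := Int.fract_lt_one (τ + j * θ)
        rw [abs_le]; constructor <;> linarith
      refine (sum_le_sum h1).trans ?_
      rw [sum_const, card_range, nsmul_eq_mul]
      have h2 : (Y : ℝ) ≤ q := by exact_mod_cast hY.le
      have h3 : (0 : ℝ) ≤ 5 / 2 * (Y / q) := by positivity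
      linarith
    · obtain ⟨Y', rfl⟩ := Nat.exists_eq_add_of_le hY
      rw [sum_range_add]
      have h1 := saw_block q hq p hpq θ τ h
      have h2 := ih Y' (by omega) (τ + q * θ)
      have h3 : ∑ x ∈ range Y', (Int.fract (τ + ((q + x : ℕ) : ℝ) * θ) - 1 / 2) =
          ∑ j ∈ range Y', (Int.fract (τ + q * θ + j * θ) - 1 / 2) := by
        refine sum_congr rfl fun j _ => ?_
        congr 2
        push_cast; ring
      rw [h3]
      refine (abs_add_le _ _).trans ?_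
      have h4 : (((q + Y' : ℕ) : ℝ) / q) = 1 + Y' / q := by push_cast; field_simp
      rw [h4]
      linarith

open Classical in
/-- Lattice points with positive coordinates in the triangle `x A + y B ≤ t`. -/
noncomputable def triF (A B t : ℝ) : Finset (ℕ × ℕ) :=
  (Icc 1 ⌊t / A⌋₊ ×ˢ Icc 1 ⌊t / B⌋₊).filter fun p => p.1 * A + p.2 * B ≤ t

theorem mem_triF {A B t : ℝ} (hA : 0 < A) (hB : 0 < B) {p : ℕ × ℕ} :
    p ∈ triF A B t ↔ 1 ≤ p.1 ∧ 1 ≤ p.2 ∧ p.1 * A + p.2 * B ≤ t := by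
  rw [triF, mem_filter, mem_product, mem_Icc, mem_Icc]
  refine ⟨fun h => ⟨h.1.1.1, h.1.2.1, h.2⟩, fun h => ⟨⟨⟨h.1, ?_⟩, h.2.1, ?_⟩, h.2.2⟩⟩
  · refine Nat.le_floor ((le_div_iff₀ hA).2 ?_)
    have : 0 ≤ (p.2 : ℝ) * B := by positivity
    linarith [h.2.2]
  · refine Nat.le_floor ((le_div_iff₀ hB).2 ?_)
    have : 0 ≤ (p.1 : ℝ) * A := by positivity
    linarith [h.2.2]

/-- The number of lattice points with positive coordinates in the triangle. -/
noncomputable def tri (A B t : ℝ) : ℝ := (triF A B t).card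

theorem tri_nonneg (A B t : ℝ) : 0 ≤ tri A B t := Nat.cast_nonneg _

theorem tri_le {A B t A' B' t' : ℝ} (hA : 0 < A) (hB : 0 < B) (hA' : 0 < A') (hB' : 0 < B')
    (h : ∀ x y : ℝ, 0 ≤ x → 0 ≤ y → x * A + y * B ≤ t → x * A' + y * B' ≤ t') :
    tri A B t ≤ tri A' B' t' := by
  unfold tri
  norm_cast
  refine card_le_card fun p hp => ?_
  rw [mem_triF hA hB] at hp
  exact (mem_triF hA' hB').2 ⟨hp.1, hp.2.1, h _ _ (by positivity) (by positivity) hp.2.2⟩

theorem tri_eq_zero {A B t : ℝ} (hA : 0 < A) (hB : 0 < B) (h : t < A + B) : tri A B t = 0 := by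
  unfold tri
  norm_cast
  rw [card_eq_zero, eq_empty_iff_forall_notMem]
  intro p hp
  rw [mem_triF hA hB] at hp
  have h1 : (1 : ℝ) ≤ p.1 := by exact_mod_cast hp.1
  have h2 : (1 : ℝ) ≤ p.2 := by exact_mod_cast hp.2.1
  nlinarith [hp.2.2]

theorem tri_split {A B : ℝ} (hA : 0 < A) (hB : 0 < B) (t : ℝ) :
    tri A B t = ⌊t / (A + B)⌋₊ + tri A (A + B) t + tri (A + B) B t := by
  classical
  have hAB : 0 < A + B := by positivity
  have h1 : ((triF A B t).filter fun p => p.1 = p.2).card = ⌊t / (A + B)⌋₊ := by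
    rw [show ⌊t / (A + B)⌋₊ = (Icc 1 ⌊t / (A + B)⌋₊).card by simp]
    refine card_nbij' (fun p => p.1) (fun x => (x, x)) ?_ ?_ ?_ ?_
    · intro p hp
      rw [mem_coe, mem_filter, mem_triF hA hB] at hp
      rw [mem_coe, mem_Icc]
      refine ⟨hp.1.1, Nat.le_floor ((le_div_iff₀ hAB).2 ?_)⟩
      have := hp.1.2.2
      rw [← hp.2] at this
      simp only
      linarith
    · intro x hx
      rw [mem_coe, mem_Icc] at hx
      rw [mem_coe, mem_filter, mem_triF hA hB]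
      refine ⟨⟨hx.1, hx.1, ?_⟩, rfl⟩
      have := (le_div_iff₀ hAB).1 ((Nat.le_floor_iff' (by omega)).1 hx.2)
      simp only
      linarith
    · intro p hp
      rw [mem_coe, mem_filter] at hp
      exact Prod.ext rfl hp.2
    · intro p _
      rfl
  have h2 : ((triF A B t).filter fun p => p.2 < p.1).card = (triF A (A + B) t).card := by
    refine card_nbij' (fun p => (p.1 - p.2, p.2)) (fun p => (p.1 + p.2, p.2)) ?_ ?_ ?_ ?_
    · intro p hp
      rw [mem_coe, mem_filter, mem_triF hA hB] at hp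
      rw [mem_coe, mem_triF hA hAB]
      refine ⟨by simp only; omega, hp.1.2.1, ?_⟩
      simp only
      rw [Nat.cast_sub hp.2.le]
      linarith [hp.1.2.2]
    · intro p hp
      rw [mem_coe, mem_triF hA hAB] at hp
      rw [mem_coe, mem_filter, mem_triF hA hB]
      refine ⟨⟨by simp only; omega, hp.2.1, ?_⟩, by simp only; omega⟩
      simp only
      push_cast
      linarith [hp.2.2]
    · intro p hp
      rw [mem_coe, mem_filter] at hp
      ext <;> simp only
      omega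
    · intro p _
      ext <;> simp only
      omega
  have h3 : ((triF A B t).filter fun p => p.1 < p.2).card = (triF (A + B) B t).card := by
    refine card_nbij' (fun p => (p.1, p.2 - p.1)) (fun p => (p.1, p.1 + p.2)) ?_ ?_ ?_ ?_
    · intro p hp
      rw [mem_coe, mem_filter, mem_triF hA hB] at hp
      rw [mem_coe, mem_triF hAB hB]
      refine ⟨hp.1.1, by simp only; omega, ?_⟩
      simp only
      rw [Nat.cast_sub hp.2.le]
      linarith [hp.1.2.2]
    · intro p hp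
      rw [mem_coe, mem_triF hAB hB] at hp
      rw [mem_coe, mem_filter, mem_triF hA hB]
      refine ⟨⟨hp.1, by simp only; omega, ?_⟩, by simp only; omega⟩
      simp only
      push_cast
      linarith [hp.2.2]
    · intro p hp
      rw [mem_coe, mem_filter] at hp
      ext <;> simp only
      omega
    · intro p _
      ext <;> simp only
      omega
  unfold tri
  rw [← h1, ← h2, ← h3]
  norm_cast
  rw [card_filter, card_filter, card_filter, ← sum_add_distrib, ← sum_add_distrib, card_eq_sum_ones]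
  refine sum_congr rfl fun p _ => ?_
  split_ifs <;> omega

theorem tri_sum {A B : ℝ} (hA : 0 < A) (hB : 0 < B) (t : ℝ) :
    tri A B t = ∑ j ∈ range ⌊t / B⌋₊, (⌊(t - (j + 1) * B) / A⌋₊ : ℝ) := by
  classical
  unfold tri
  norm_cast
  rw [card_eq_sum_card_fiberwise (f := fun p : ℕ × ℕ => p.2 - 1) (t := range ⌊t / B⌋₊)]
  · refine sum_congr rfl fun j _ => ?_
    rw [show ⌊(t - ((j + 1 : ℕ) : ℝ) * B) / A⌋₊ =
      (Icc 1 ⌊(t - ((j + 1 : ℕ) : ℝ) * B) / A⌋₊).card by simp]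
    refine card_nbij' (fun p => p.1) (fun x => (x, j + 1)) ?_ ?_ ?_ ?_
    · intro p hp
      rw [mem_coe, mem_filter, mem_triF hA hB] at hp
      rw [mem_coe, mem_Icc]
      refine ⟨hp.1.1, Nat.le_floor ((le_div_iff₀ hA).2 ?_)⟩
      have h1 := hp.1.2.2
      have h2 : p.2 = j + 1 := by have := hp.1.2.1; have := hp.2; omega
      rw [h2] at h1
      simp only
      linarith
    · intro x hx
      rw [mem_coe, mem_Icc] at hx
      rw [mem_coe, mem_filter, mem_triF hA hB]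
      refine ⟨⟨hx.1, by simp, ?_⟩, by simp⟩
      have := (le_div_iff₀ hA).1 ((Nat.le_floor_iff' (by omega)).1 hx.2)
      simp only
      linarith
    · intro p hp
      rw [mem_coe, mem_filter, mem_triF hA hB] at hp
      refine Prod.ext rfl ?_
      have := hp.1.2.1; have := hp.2
      simp only
      omega
    · intro p _
      rfl
  · intro p hp
    rw [mem_coe, triF, mem_filter, mem_product, mem_Icc, mem_Icc] at hp
    rw [mem_coe, mem_range]
    simp only
    omega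

theorem tri_est {A B t : ℝ} (hA : 0 < A) (hB : 0 < B) (ht : 0 ≤ t) (q : ℕ) (hq : 1 ≤ q) (p : ℤ)
    (hpq : IsCoprime p q) (h : |B / A - p / q| ≤ 1 / (q : ℝ) ^ 2) :
    |tri A B t - t ^ 2 / (2 * A * B) + t / (2 * A) + t / (2 * B)| ≤
      5 / 2 * (t / (B * q)) + q / 2 + B / A + 1 := by
  have hq0 : (0 : ℝ) < q := by exact_mod_cast hq
  set Y := ⌊t / B⌋₊ with hY
  have hY1 : (Y : ℝ) ≤ t / B := Nat.floor_le (by positivity)
  have hY2 : t / B < Y + 1 := Nat.lt_floor_add_one _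
  have h1 := saw q hq (-p) hpq.neg_left (-(B / A)) (by
    rw [← abs_neg]; convert h using 2; push_cast; ring) Y ((t - B) / A)
  have h2 : ∀ j ∈ range Y, (⌊(t - (j + 1) * B) / A⌋₊ : ℝ) =
      ((t - B) / A - 1 / 2) - j * (B / A) -
        (Int.fract ((t - B) / A + j * -(B / A)) - 1 / 2) := by
    intro j hj
    have hj' : (j : ℝ) + 1 ≤ Y := by exact_mod_cast mem_range.1 hj
    have h3 : 0 ≤ (t - (j + 1) * B) / A := by
      refine div_nonneg ?_ hA.le
      have := (le_div_iff₀ hB).1 (hj'.trans hY1)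
      linarith
    have h4 : (t - B) / A + j * -(B / A) = (t - (j + 1) * B) / A := by ring
    rw [h4, natCast_floor_eq_intCast_floor h3, Int.fract, ← h4]
    ring
  have h6 : ∑ j ∈ range Y, (j : ℝ) = Y * (Y - 1) / 2 := by
    clear * -
    induction Y with
    | zero => simp
    | succ n ih => rw [sum_range_succ, ih]; push_cast; ring
  rw [tri_sum hA hB, ← hY, sum_congr rfl h2, sum_sub_distrib, sum_sub_distrib, ← sum_mul, h6,
    sum_const, card_range, nsmul_eq_mul]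
  generalize ∑ j ∈ range Y, (Int.fract ((t - B) / A + j * -(B / A)) - 1 / 2) = S at h1 ⊢
  obtain ⟨φ, hφ⟩ : ∃ φ, φ = t / B - Y := ⟨_, rfl⟩
  have hφ0 : 0 ≤ φ := by linarith
  have hφ1 : φ ≤ 1 := by linarith
  have hYφ : (Y : ℝ) = t / B - φ := by linarith
  have h7 : (Y : ℝ) * ((t - B) / A - 1 / 2) - Y * (Y - 1) / 2 * (B / A) - S -
      t ^ 2 / (2 * A * B) + t / (2 * A) + t / (2 * B) =
      -S + (φ - φ ^ 2) / 2 * (B / A) + φ / 2 := by
    rw [hYφ]; field_simp; ring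
  rw [h7]
  have h8 : (Y : ℝ) / q ≤ t / (B * q) := by
    rw [← div_div]; gcongr
  have h9 : 0 ≤ B / A := by positivity
  have h10 : 0 ≤ (φ - φ ^ 2) / 2 * (B / A) := mul_nonneg (by nlinarith) h9
  have h11 : (φ - φ ^ 2) / 2 * (B / A) ≤ 1 * (B / A) :=
    mul_le_mul_of_nonneg_right (by nlinarith) h9
  have h12 := abs_le.1 h1
  rw [abs_le]
  constructor <;> linarith

end Pool.Agent.MP_30e119_nt

end MrgPart2

-- ======== part 3: formerly Pool.Agent.MP_30e119_nt.Sums
section MrgPart3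

/-! Sums over the Markov tree. -/

set_option autoImplicit false

open Finset

namespace Pool.Agent.MP_30e119_nt

namespace Node

/-- The descendant reached along a path. -/
def desc : Node → List Bool → Node
  | n, [] => n
  | n, false :: l => desc n.L l
  | n, true :: l => desc n.R l

/-- Sum over all descendants. -/
noncomputable def tot (n : Node) (f : Node → ℝ) : ℝ := ∑' l : List Bool, f (n.desc l)

theorem finsum_le_pot {f Φ : Node → ℝ} (hf : ∀ n, 0 ≤ f n) (hΦ : ∀ n, 0 ≤ Φ n)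
    (h : ∀ n, f n + Φ n.L + Φ n.R ≤ Φ n) (k : ℕ) :
    ∀ (n : Node) (S : Finset (List Bool)), (∀ l ∈ S, l.length < k) →
      ∑ l ∈ S, f (n.desc l) ≤ Φ n := by
  classical
  induction k with
  | zero =>
    intro n S hS
    have : S = ∅ := eq_empty_iff_forall_notMem.2 fun l hl => absurd (hS l hl) (by omega)
    rw [this, sum_empty]; exact hΦ n
  | succ k ih =>
    intro n S hS
    let T : Finset (List Bool) := (S.erase []).image List.tail
    have hT : ∀ l ∈ T, l.length < k := by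
      intro l hl
      obtain ⟨l', hl', rfl⟩ := mem_image.1 hl
      have h1 := hS l' (mem_of_mem_erase hl')
      have h2 : l'.length ≠ 0 := fun h0 => ne_of_mem_erase hl' (List.length_eq_zero_iff.1 h0)
      rw [List.length_tail]; omega
    have hsub : S ⊆ insert [] (T.image (List.cons false) ∪ T.image (List.cons true)) := by
      intro l hl
      rcases l with _ | ⟨b, l⟩
      · exact mem_insert_self _ _
      · have hl' : l ∈ T := mem_image.2 ⟨b :: l, mem_erase.2 ⟨by simp, hl⟩, rfl⟩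
        refine mem_insert_of_mem (mem_union.2 ?_)
        cases b
        · exact Or.inl (mem_image_of_mem _ hl')
        · exact Or.inr (mem_image_of_mem _ hl')
    refine (sum_le_sum_of_subset_of_nonneg hsub fun _ _ _ => hf _).trans ?_
    rw [sum_insert (by simp), sum_union (by simp [disjoint_left]),
      sum_image fun _ _ _ _ h => List.cons_injective h,
      sum_image fun _ _ _ _ h => List.cons_injective h]
    have h1 := ih n.L T hT
    have h2 := ih n.R T hT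
    have h3 := h n
    simp only [desc]
    linarith

theorem summable_of_pot {f Φ : Node → ℝ} (hf : ∀ n, 0 ≤ f n) (hΦ : ∀ n, 0 ≤ Φ n)
    (h : ∀ n, f n + Φ n.L + Φ n.R ≤ Φ n) (n : Node) :
    (Summable fun l => f (n.desc l)) ∧ n.tot f ≤ Φ n := by
  have key : ∀ S : Finset (List Bool), ∑ l ∈ S, f (n.desc l) ≤ Φ n := fun S =>
    finsum_le_pot hf hΦ h (S.sup List.length + 1) n S fun l hl =>
      Nat.lt_succ_of_le (le_sup (f := List.length) hl)
  have hs : Summable fun l => f (n.desc l) := summable_of_sum_le (fun _ => hf _) key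
  exact ⟨hs, hs.tsum_le_of_sum_le key⟩

/-- Splitting a path at its first step. -/
def listEquiv : Unit ⊕ (List Bool ⊕ List Bool) ≃ List Bool where
  toFun
    | Sum.inl _ => []
    | Sum.inr (Sum.inl l) => false :: l
    | Sum.inr (Sum.inr l) => true :: l
  invFun
    | [] => Sum.inl ()
    | false :: l => Sum.inr (Sum.inl l)
    | true :: l => Sum.inr (Sum.inr l)
  left_inv := by rintro (_ | l | l) <;> rfl
  right_inv := by rintro (_ | ⟨_ | _, l⟩) <;> rfl

theorem tot_rec {f : Node → ℝ} (h : ∀ n : Node, Summable fun l => f (n.desc l)) (n : Node) :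
    n.tot f = f n + n.L.tot f + n.R.tot f := by
  have h1 : HasSum (fun x : List Bool ⊕ List Bool => f (n.desc (listEquiv (Sum.inr x))))
      (n.L.tot f + n.R.tot f) := HasSum.sum (h n.L).hasSum (h n.R).hasSum
  have h2 : HasSum (fun x => f (n.desc (listEquiv x))) (f n + (n.L.tot f + n.R.tot f)) :=
    HasSum.sum (hasSum_unique fun _ : Unit => f n) h1
  rw [add_assoc]
  exact ((listEquiv.hasSum_iff (f := fun l => f (n.desc l))).1 h2).tsum_eq

theorem tot_nonneg {f : Node → ℝ} (hf : ∀ n, 0 ≤ f n) (n : Node) : 0 ≤ n.tot f :=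
  tsum_nonneg fun _ => hf _

theorem le_tot {f Ψ : Node → ℝ} (hf : ∀ n, 0 ≤ f n)
    (h : ∀ n : Node, Summable fun l => f (n.desc l)) (M : ℕ) (hleaf : ∀ n, M < n.c → Ψ n ≤ 0)
    (hstep : ∀ n, Ψ n ≤ f n + Ψ n.L + Ψ n.R) (n : Node) : Ψ n ≤ n.tot f := by
  refine ind M (P := fun n => Ψ n ≤ n.tot f) (fun n hn => (hleaf n hn).trans (tot_nonneg hf n))
    (fun n _ h1 h2 => ?_) n
  rw [tot_rec h]
  linarith [hstep n]

/-- Sum over the first descendants above the level `M`. -/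
noncomputable def lsum (M : ℕ) (f : Node → ℝ) (n : Node) : ℝ :=
  if M < n.c then f n else lsum M f n.L + lsum M f n.R
termination_by M + 1 - n.c
decreasing_by
  · have := n.L_c; have := n.five_le; omega
  · have := n.R_c; have := n.five_le; omega

theorem lsum_leaf {M : ℕ} (f : Node → ℝ) {n : Node} (h : M < n.c) : lsum M f n = f n := by
  rw [lsum, if_pos h]

theorem lsum_step {M : ℕ} (f : Node → ℝ) {n : Node} (h : n.c ≤ M) :
    lsum M f n = lsum M f n.L + lsum M f n.R := by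
  rw [lsum, if_neg (not_lt.2 h)]

theorem lsum_le {M : ℕ} {f g : Node → ℝ} (n : Node) : n.a ≤ M → n.b ≤ M →
    (∀ m, Desc n m → M < m.c → m.a ≤ M → m.b ≤ M → f m ≤ g m) → lsum M f n ≤ lsum M g n := by
  refine ind M (P := fun n => n.a ≤ M → n.b ≤ M →
    (∀ m, Desc n m → M < m.c → m.a ≤ M → m.b ≤ M → f m ≤ g m) → lsum M f n ≤ lsum M g n)
    (fun n hn ha hb h => ?_) (fun n hn h1 h2 ha hb h => ?_) n
  · rw [lsum_leaf f hn, lsum_leaf g hn]
    exact h n (Desc.refl n) hn ha hb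
  · rw [lsum_step f hn, lsum_step g hn]
    exact add_le_add (h1 ha hn fun m hm => h m hm.left) (h2 hn hb fun m hm => h m hm.right)

theorem lsum_lin (M : ℕ) (f g : Node → ℝ) (x y : ℝ) (n : Node) :
    lsum M (fun m => x * f m + y * g m) n = x * lsum M f n + y * lsum M g n := by
  refine ind M (P := fun n => lsum M (fun m => x * f m + y * g m) n =
    x * lsum M f n + y * lsum M g n) (fun n hn => ?_) (fun n hn h1 h2 => ?_) n
  · rw [lsum_leaf _ hn, lsum_leaf _ hn, lsum_leaf _ hn]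
  · rw [lsum_step _ hn, lsum_step _ hn, lsum_step _ hn, h1, h2]; ring

theorem lsum_mul (M : ℕ) (f : Node → ℝ) (x : ℝ) (n : Node) :
    lsum M (fun m => x * f m) n = x * lsum M f n := by
  simpa using lsum_lin M f f x 0 n

theorem lsum_tower {M₀ M : ℕ} (h : M₀ ≤ M) (f : Node → ℝ) (n : Node) :
    lsum M f n = lsum M₀ (lsum M f) n := by
  refine ind M₀ (P := fun n => lsum M f n = lsum M₀ (lsum M f) n) (fun n hn => ?_)
    (fun n hn h1 h2 => ?_) n
  · rw [lsum_leaf _ hn]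
  · rw [lsum_step _ hn, lsum_step _ (hn.trans h), h1, h2]

variable (n : Node)

/-- The weight of a node. -/
noncomputable def wt : ℝ := 1 / (n.A * n.B)
/-- The term of Zagier's series. -/
noncomputable def zt : ℝ := n.del / (n.A * n.B * n.G)
/-- The area of the part of the unit ball in the cone of the node. -/
noncomputable def ar : ℝ := n.wt / 2 + n.tot zt / 2
/-- The number of lattice points in the open cone of the node with norm at most `t`. -/
noncomputable def cnt (t : ℝ) : ℝ := n.tot fun m => (⌊t / m.G⌋₊ : ℝ)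
/-- The discrepancy. -/
noncomputable def err (t : ℝ) : ℝ := n.cnt t - n.ar * t ^ 2 + t / (2 * n.A) + t / (2 * n.B)

theorem wt_pos : 0 < n.wt := by have := n.A_pos; have := n.B_pos; unfold wt; positivity

theorem zt_pos : 0 < n.zt := by
  have := n.A_pos; have := n.B_pos; have := n.G_pos; have := n.del_pos; unfold zt; positivity

theorem wt_rec : n.L.wt + n.R.wt = n.wt + n.zt := by
  have := n.A_pos; have := n.B_pos; have := n.G_pos
  simp only [wt, zt, del, L_A, L_B, R_A, R_B]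
  field_simp
  ring

theorem inv_sq_le : 1 / (n.c : ℝ) ^ 2 ≤ 1 / 25 := by
  have := n.rc
  rw [show (25 : ℝ) = 5 ^ 2 by norm_num]; gcongr

theorem del_le : n.del ≤ 3 / 4 * (1 / (n.c : ℝ) ^ 2) := by
  have := n.del_bd.2
  rwa [div_eq_mul_one_div (3 / 4 : ℝ)] at this

theorem zt_le : n.zt ≤ n.wt * (3 / 4 * (1 / (n.c : ℝ) ^ 2)) := by
  have h1 := n.A_pos; have h2 := n.B_pos; have h3 := n.G_ge; have h4 := n.del_pos
  have h5 : n.zt = n.wt * (n.del / n.G) := by unfold zt wt; field_simp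
  rw [h5]
  exact mul_le_mul_of_nonneg_left ((div_le_self h4.le h3).trans n.del_le) n.wt_pos.le

theorem child_sq {c' : ℝ} (hc' : 2 * (n.c : ℝ) ≤ c') :
    1 / c' ^ 2 ≤ 1 / 4 * (1 / (n.c : ℝ) ^ 2) := by
  have h0 := n.rc0
  calc 1 / c' ^ 2 ≤ 1 / (2 * (n.c : ℝ)) ^ 2 := by gcongr
    _ = _ := by field_simp; norm_num

theorem zt_pot : (Summable fun l => (n.desc l).zt) ∧
    n.tot zt ≤ 2 * n.wt * (1 / (n.c : ℝ) ^ 2) := by
  refine summable_of_pot (Φ := fun n => 2 * n.wt * (1 / (n.c : ℝ) ^ 2)) (fun n => n.zt_pos.le)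
    (fun n => by have := n.wt_pos; positivity) (fun n => ?_) n
  have h1 := n.child_sq n.L_rc
  have h2 := n.child_sq n.R_rc
  have h3 := n.wt_rec
  have h4 := n.zt_le
  have h5 := n.inv_sq_le
  have h6 := n.wt_pos; have h7 := n.L.wt_pos; have h8 := n.R.wt_pos
  have h9 : 0 < 1 / (n.c : ℝ) ^ 2 := by have := n.rc0; positivity
  generalize 1 / (n.c : ℝ) ^ 2 = x at *
  have e1 := mul_le_mul_of_nonneg_left h1 h7.le
  have e2 := mul_le_mul_of_nonneg_left h2 h8.le
  have e3 : n.zt ≤ n.wt := by nlinarith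
  have e4 := mul_le_mul_of_nonneg_right e3 h9.le
  have e5 : (n.L.wt + n.R.wt) * x = (n.wt + n.zt) * x := by rw [h3]
  nlinarith

theorem ar_rec : n.ar = n.L.ar + n.R.ar := by
  unfold ar
  rw [tot_rec (fun n => n.zt_pot.1) n]
  linarith [n.wt_rec]

theorem ar_bd : n.wt / 2 ≤ n.ar ∧ n.ar ≤ n.wt / 2 + n.wt * (1 / (n.c : ℝ) ^ 2) := by
  have h1 := n.zt_pot.2
  have h2 := tot_nonneg (fun n => n.zt_pos.le) n
  unfold ar
  constructor <;> linarith

theorem lsum_wt_le (M : ℕ) : lsum M wt n ≤ 2 * n.wt := by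
  have h : lsum M wt n ≤ 2 * n.ar := by
    refine ind M (P := fun n => lsum M wt n ≤ 2 * n.ar) (fun n hn => ?_) (fun n hn h1 h2 => ?_) n
    · rw [lsum_leaf _ hn]; linarith [n.ar_bd.1]
    · rw [lsum_step _ hn, n.ar_rec]; linarith
  have h1 := n.ar_bd.2
  have h2 := mul_le_mul_of_nonneg_left n.inv_sq_le n.wt_pos.le
  linarith [n.wt_pos]

theorem G_le : n.G ≤ n.A + n.B := by have := n.del_pos; unfold del at this; linarith

theorem cnt_pot {t : ℝ} (ht : 0 ≤ t) : (Summable fun l => (⌊t / (n.desc l).G⌋₊ : ℝ)) ∧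
    n.cnt t ≤ tri n.A n.B (t * (1 + 2 * (1 / (n.c : ℝ) ^ 2))) := by
  refine summable_of_pot (f := fun m => (⌊t / m.G⌋₊ : ℝ))
    (Φ := fun n => tri n.A n.B (t * (1 + 2 * (1 / (n.c : ℝ) ^ 2)))) (fun n => Nat.cast_nonneg _)
    (fun n => tri_nonneg _ _ _) (fun n => ?_) n
  have hA := n.A_pos; have hB := n.B_pos; have hG := n.G_pos; have hG1 := n.G_ge
  have hd := n.del_pos
  have h1 := n.child_sq n.L_rc
  have h2 := n.child_sq n.R_rc
  have h4 := n.del_le
  have h5 := n.inv_sq_le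
  have h9 : 0 < 1 / (n.c : ℝ) ^ 2 := by have := n.rc0; positivity
  have hAB : n.A + n.B = n.G + n.del := by unfold del; ring
  rw [tri_split hA hB]
  simp only [L_A, L_B, R_A, R_B]
  generalize 1 / (n.c : ℝ) ^ 2 = x at *
  have key : ∀ y z x' : ℝ, 0 ≤ y → 0 ≤ z → x' ≤ 1 / 4 * x → z + y * n.G ≤ t * (1 + 2 * x') →
      z + y * (n.A + n.B) ≤ t * (1 + 2 * x) := by
    intro y z x' hy hz hx' h
    have e1 : t * (1 + 2 * x') ≤ t * (1 + 1 / 2 * x) :=
      mul_le_mul_of_nonneg_left (by linarith) ht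
    have e2 : y ≤ y * n.G := le_mul_of_one_le_right hy hG1
    have e3 : y ≤ t * (1 + 1 / 2 * x) := by linarith
    have e4 : y * n.del ≤ t * (1 + 1 / 2 * x) * (3 / 4 * x) :=
      mul_le_mul e3 h4 hd.le (by positivity)
    have e5 : t * (1 + 1 / 2 * x) * (3 / 4 * x) ≤ t * (3 / 2 * x) := by
      rw [mul_assoc]; exact mul_le_mul_of_nonneg_left (by nlinarith) ht
    rw [hAB]
    nlinarith
  refine add_le_add (add_le_add ?_ ?_) ?_
  · refine Nat.cast_le.2 (Nat.floor_le_floor ?_)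
    rw [le_div_iff₀ (by positivity)]
    have := key (t / n.G) 0 0 (by positivity) le_rfl (by positivity) (by field_simp; simp)
    linarith
  · refine tri_le hA hG hA (by positivity) fun a b ha hb h => ?_
    exact key b _ _ hb (by positivity) h1 h
  · refine tri_le hG hB (by positivity) hB fun a b ha hb h => ?_
    have := key a (b * n.B) _ ha (by positivity) h2 (by linarith)
    linarith

theorem le_cnt {t : ℝ} (ht : 0 ≤ t) : tri n.A n.B t ≤ n.cnt t := by
  refine le_tot (f := fun m => (⌊t / m.G⌋₊ : ℝ)) (Ψ := fun n => tri n.A n.B t)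
    (fun n => Nat.cast_nonneg _) (fun n => (n.cnt_pot ht).1) ⌈Real.exp t⌉₊ (fun n hn => ?_)
    (fun n => ?_) n
  · refine (tri_eq_zero n.A_pos n.B_pos (lt_of_lt_of_le ?_ n.G_le)).le
    refine lt_of_lt_of_le ?_ (log_le_gg n.rc1)
    rw [Real.lt_log_iff_exp_lt n.rc0]
    exact (Nat.le_ceil _).trans_lt (by exact_mod_cast hn)
  · have hA := n.A_pos; have hB := n.B_pos; have hG := n.G_pos; have hle := n.G_le
    rw [tri_split hA hB]
    simp only [L_A, L_B, R_A, R_B]
    refine add_le_add (add_le_add ?_ ?_) ?_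
    · exact Nat.cast_le.2 (Nat.floor_le_floor (by gcongr))
    · refine tri_le hA (by positivity) hA hG fun a b _ hb h => ?_
      nlinarith [mul_le_mul_of_nonneg_left hle hb]
    · refine tri_le (by positivity) hB hG hB fun a b ha _ h => ?_
      nlinarith [mul_le_mul_of_nonneg_left hle ha]

theorem err_rec {t : ℝ} (ht : 0 ≤ t) : |n.err t| ≤ 1 + |n.L.err t| + |n.R.err t| := by
  have hG := n.G_pos
  have h1 : n.err t = (⌊t / n.G⌋₊ - t / n.G) + n.L.err t + n.R.err t := by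
    unfold err cnt
    rw [tot_rec (f := fun m => (⌊t / m.G⌋₊ : ℝ)) (fun n => (n.cnt_pot ht).1) n, n.ar_rec]
    simp only [L_A, L_B, R_A, R_B]
    field_simp
    ring
  have h2 : |(⌊t / n.G⌋₊ : ℝ) - t / n.G| ≤ 1 := by
    have := Nat.floor_le (show 0 ≤ t / n.G by positivity)
    have := Nat.lt_floor_add_one (t / n.G)
    rw [abs_le]; constructor <;> linarith
  rw [h1]
  exact (abs_add_three _ _ _).trans (by linarith)

theorem err_le_lsum (M : ℕ) {t : ℝ} (ht : 0 ≤ t) :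
    |n.err t| + 1 ≤ lsum M (fun m => |m.err t| + 1) n := by
  refine ind M (P := fun n => |n.err t| + 1 ≤ lsum M (fun m => |m.err t| + 1) n)
    (fun n hn => ?_) (fun n hn h1 h2 => ?_) n
  · rw [lsum_leaf _ hn]
  · rw [lsum_step _ hn]; linarith [n.err_rec ht]

end Node

end Pool.Agent.MP_30e119_nt

end MrgPart3

-- ======== part 4: formerly Pool.Agent.MP_30e119_nt.Liouville
section MrgPart4

/-! A Liouville-type lower bound for `y g b - X g a`. -/

set_option autoImplicit false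

namespace Pool.Agent.MP_30e119_nt

theorem form_ne_zero (a m n : ℤ) (ha : 1 ≤ a) (h : m ^ 2 + 3 * a * m * n + n ^ 2 = 0) :
    m = 0 ∧ n = 0 := by
  have hn : n = 0 := by
    by_contra hn
    have h1 : IsSquare (((9 * a ^ 2 - 4 : ℤ) : ℚ)) := by
      refine ⟨((2 * m + 3 * a * n : ℤ) : ℚ) / n, ?_⟩
      have hn' : (n : ℚ) ≠ 0 := by exact_mod_cast hn
      have h' : (m : ℚ) ^ 2 + 3 * a * m * n + n ^ 2 = 0 := by exact_mod_cast h
      field_simp
      push_cast
      linear_combination (-4) * h'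
    obtain ⟨s, hs⟩ := Rat.isSquare_intCast_iff.1 h1
    have h2 : |s| * |s| = 9 * a ^ 2 - 4 := by rw [abs_mul_abs_self, hs]
    have h3 := abs_nonneg s
    generalize |s| = k at h2 h3
    rcases le_or_gt (3 * a) k with h4 | h4
    · nlinarith
    · nlinarith
  subst hn
  refine ⟨?_, rfl⟩
  simpa using h

/-- `r` and `r'` are conjugate elements of the order generated by `l`. -/
def Conj (l l' r r' : ℝ) : Prop := ∃ m n : ℤ, r = m + n * l ∧ r' = m + n * l'

theorem Conj.mul {a : ℤ} {l l' r r' s s' : ℝ} (h1 : l + l' = 3 * a) (h2 : l * l' = 1)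
    (hr : Conj l l' r r') (hs : Conj l l' s s') : Conj l l' (r * s) (r' * s') := by
  obtain ⟨m, n, rfl, rfl⟩ := hr
  obtain ⟨m', n', rfl, rfl⟩ := hs
  refine ⟨m * m' - n * n', m * n' + n * m' + 3 * a * n * n', ?_, ?_⟩
  · push_cast
    linear_combination (n * n' * l) * h1 - (n * n') * h2
  · push_cast
    linear_combination (n * n' * l') * h1 - (n * n') * h2

theorem Conj.pow {a : ℤ} {l l' r r' : ℝ} (h1 : l + l' = 3 * a) (h2 : l * l' = 1)
    (hr : Conj l l' r r') (k : ℕ) : Conj l l' (r ^ k) (r' ^ k) := by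
  induction k with
  | zero => exact ⟨1, 0, by simp, by simp⟩
  | succ k ih => rw [pow_succ, pow_succ]; exact ih.mul h1 h2 hr

theorem Conj.sub {l l' r r' s s' : ℝ} (hr : Conj l l' r r') (hs : Conj l l' s s') :
    Conj l l' (r - s) (r' - s') := by
  obtain ⟨m, n, rfl, rfl⟩ := hr
  obtain ⟨m', n', rfl, rfl⟩ := hs
  exact ⟨m - m', n - n', by push_cast; ring, by push_cast; ring⟩

theorem Conj.norm {a : ℤ} (ha : 1 ≤ a) {l l' r r' : ℝ} (h1 : l + l' = 3 * a) (h2 : l * l' = 1)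
    (hr : Conj l l' r r') : (r = 0 ∧ r' = 0) ∨ 1 ≤ |r * r'| := by
  obtain ⟨m, n, rfl, rfl⟩ := hr
  have h : ((m : ℝ) + n * l) * (m + n * l') = ((m ^ 2 + 3 * a * m * n + n ^ 2 : ℤ) : ℝ) := by
    push_cast
    linear_combination (m * n) * h1 + (n ^ 2) * h2
  by_cases h0 : m ^ 2 + 3 * a * m * n + n ^ 2 = 0
  · obtain ⟨rfl, rfl⟩ := form_ne_zero a m n ha h0
    left; simp
  · right
    rw [h]
    exact_mod_cast Int.one_le_abs h0

theorem alpha_close {b α β κ : ℝ} (hb : 1 ≤ b) (h1 : α + β = 3 * b) (h2 : α * β = κ)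
    (h3 : 1 ≤ κ) (h4 : κ ≤ 9 / 5) (h5 : β ≤ α) : |Real.log α - gg b| ≤ 1 / b ^ 2 := by
  have hq := lam_pos hb
  have hq1 := lam_mul hb
  have hq2 := lam_ge hb
  rw [gg_eq]
  generalize lam b = q at *
  have hα : 3 / 2 * b ≤ α := by linarith
  have hα0 : 0 < α := by linarith
  have he : (q - α) * (q + α - 3 * b) = κ - 1 := by
    have : β = 3 * b - α := by linarith
    subst this
    linear_combination -hq1 + h2
  have h6 : 11 / 10 * b ≤ q + α - 3 * b := by linarith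
  have h7 : 0 ≤ q - α := by
    by_contra h
    have := mul_neg_of_neg_of_pos (not_le.1 h) (show 0 < q + α - 3 * b by linarith)
    linarith
  have h8 : (q - α) * (11 / 10 * b) ≤ 4 / 5 :=
    (mul_le_mul_of_nonneg_left h6 h7).trans (by linarith)
  rw [abs_sub_comm, ← Real.log_div hq.ne' hα0.ne',
    abs_of_nonneg (Real.log_nonneg ((one_le_div hα0).2 (by linarith)))]
  refine (Real.log_le_sub_one_of_pos (div_pos hq hα0)).trans ?_
  rw [div_sub_one hα0.ne', div_le_div_iff₀ hα0 (by positivity)]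
  have h9 : (q - α) * (11 / 10 * b) * b ≤ 4 / 5 * b := mul_le_mul_of_nonneg_right h8 (by linarith)
  nlinarith

theorem liouville {a b c : ℕ} (ha : 1 ≤ a) (hb : 1 ≤ b) (h4 : 12 * a * b ≤ 5 * c)
    (eqn : a ^ 2 + b ^ 2 + c ^ 2 = 3 * a * b * c) (X y : ℕ) (hy : 1 ≤ y) (η : ℝ)
    (hη : η ≤ 1 / 2) (h : |y * gg b - X * gg a| + y / (b : ℝ) ^ 2 ≤ η) :
    1 ≤ 4 * η * Real.exp (4 * y * gg a) := by
  have ha' : (1 : ℝ) ≤ a := by exact_mod_cast ha
  have hb' : (1 : ℝ) ≤ b := by exact_mod_cast hb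
  have h4' : (12 : ℝ) * a * b ≤ 5 * c := by exact_mod_cast h4
  have eqn' : (a : ℝ) ^ 2 + b ^ 2 + c ^ 2 = 3 * a * b * c := by exact_mod_cast eqn
  have hl := lam_pos ha'
  have hl1 := lam_mul ha'
  have hl2 := lam_ge ha'
  have hexp : Real.exp (gg a) = lam a := exp_gg ha'
  set l := lam a with hldef
  obtain ⟨l', hl'⟩ : ∃ l', l' = 3 * a - l := ⟨_, rfl⟩
  rw [← hl'] at hl1
  have hsum : l + l' = 3 * ((a : ℤ) : ℝ) := by rw [hl']; push_cast; ring
  have hsum' : l + l' = 3 * a := by rw [hl']; ring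
  have hl'0 : 0 < l' := by
    by_contra hh
    have := mul_nonpos_of_nonneg_of_nonpos hl.le (not_lt.1 hh)
    linarith
  obtain ⟨S, hS⟩ : ∃ S, S = l - l' := ⟨_, rfl⟩
  have hS0 : 0 < S := by linarith
  have hS2 : S ^ 2 = 9 * a ^ 2 - 4 := by
    rw [hS]; linear_combination (l + l' + 3 * a) * hsum' - 4 * hl1
  have hD : 5 ≤ S ^ 2 := by nlinarith
  obtain ⟨α, hα⟩ : ∃ α, α = (3 * c - 3 * b * l') / S := ⟨_, rfl⟩
  obtain ⟨β, hβ⟩ : ∃ β, β = (3 * b * l - 3 * c) / S := ⟨_, rfl⟩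
  have hαS : α * S = 3 * c - 3 * b * l' := by rw [hα]; field_simp
  have hβS : β * S = 3 * b * l - 3 * c := by rw [hβ]; field_simp
  have hαβ : α + β = 3 * b := by
    refine mul_right_cancel₀ hS0.ne' ?_
    rw [add_mul, hαS, hβS, hS]; ring
  obtain ⟨κ, hκ⟩ : ∃ κ, κ = α * β := ⟨_, rfl⟩
  have hκS : κ * S ^ 2 = S ^ 2 + 4 := by
    have : κ * S ^ 2 = (α * S) * (β * S) := by rw [hκ]; ring
    rw [this, hαS, hβS, hS2]
    linear_combination (9 * b * c) * hsum' - 9 * b ^ 2 * hl1 - 9 * eqn'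
  have hκ1 : 1 < κ := by
    by_contra hh
    have := mul_le_mul_of_nonneg_right (not_lt.1 hh) (show 0 ≤ S ^ 2 by positivity)
    linarith
  have hκ2 : κ ≤ 9 / 5 := by
    by_contra hh
    have := mul_lt_mul_of_pos_right (not_le.1 hh) (show 0 < S ^ 2 by positivity)
    linarith
  have hβα : β ≤ α := by
    refine le_of_mul_le_mul_right ?_ hS0
    rw [hαS, hβS]
    have : 3 * (b : ℝ) * l + 3 * b * l' = 9 * a * b := by linear_combination (3 * b) * hsum'
    have h5 : 0 < (a : ℝ) * b := by positivity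
    linarith
  have hα0 : 0 < α := by linarith
  have hβ0 : 0 < β := by
    by_contra hh
    have := mul_nonpos_of_nonneg_of_nonpos hα0.le (not_lt.1 hh)
    linarith
  have hclose := alpha_close hb' hαβ hκ.symm hκ1.le hκ2 hβα
  -- the conjugate pair
  have c1 : Conj l l' (α * S) (-(β * S)) :=
    ⟨3 * c - 9 * a * b, 3 * b, by rw [hαS]; push_cast; linear_combination (-3 * b) * hsum',
      by rw [hβS]; push_cast; linear_combination (-3 * b) * hsum'⟩
  have c2 : Conj l l' l l' := ⟨0, 1, by simp, by simp⟩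
  have c3 : Conj l l' S (-S) :=
    ⟨-3 * a, 2, by rw [hS]; push_cast; linear_combination -hsum',
      by rw [hS]; push_cast; linear_combination -hsum'⟩
  have c4 := (c1.pow hsum hl1 y).sub ((c2.pow hsum hl1 X).mul hsum hl1 (c3.pow hsum hl1 y))
  obtain ⟨γ, hγ⟩ : ∃ γ, γ = α ^ y * l' ^ X := ⟨_, rfl⟩
  obtain ⟨γ', hγ'⟩ : ∃ γ', γ' = β ^ y * l ^ X := ⟨_, rfl⟩
  have hll : l ^ X * l' ^ X = 1 := by rw [← mul_pow, hl1, one_pow]
  have e1 : (α * S) ^ y - l ^ X * S ^ y = S ^ y * l ^ X * (γ - 1) := by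
    rw [hγ, mul_pow]; linear_combination (-(α ^ y * S ^ y)) * hll
  have e2 : (-(β * S)) ^ y - l' ^ X * (-S) ^ y = (-S) ^ y * l' ^ X * (γ' - 1) := by
    rw [hγ', ← mul_neg, mul_pow]; linear_combination (-(β ^ y * (-S) ^ y)) * hll
  rw [e1, e2] at c4
  have hγγ : γ * γ' = κ ^ y := by
    rw [hγ, hγ', hκ, mul_pow]; linear_combination (α ^ y * β ^ y) * hll
  have hκy : 1 < κ ^ y := one_lt_pow₀ hκ1 (by omega)
  have hγexp : γ = Real.exp (y * Real.log α - X * gg a) := by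
    rw [Real.exp_sub, Real.exp_nat_mul, Real.exp_nat_mul, Real.exp_log hα0, hexp, hγ,
      eq_div_iff (by positivity)]
    linear_combination (α ^ y) * hll
  have hsmall : |y * Real.log α - X * gg a| ≤ η := by
    have e : y * Real.log α - X * gg a = (y * gg b - X * gg a) + y * (Real.log α - gg b) := by
      ring
    rw [e]
    refine (abs_add_le _ _).trans (le_trans ?_ h)
    rw [abs_mul, Nat.abs_cast, div_eq_mul_one_div (y : ℝ)]
    gcongr
  have hη0 : 0 ≤ η := (abs_nonneg _).trans hsmall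
  have hγ1 : |γ - 1| ≤ 2 * η := by
    rw [hγexp]
    exact (Real.abs_exp_sub_one_le (hsmall.trans (by linarith))).trans (by linarith)
  have hγ2 : 1 / 2 ≤ γ := by
    rw [hγexp]
    have := Real.add_one_le_exp (y * Real.log α - X * gg a)
    have := (abs_le.1 hsmall).1
    linarith
  have hγ'0 : 0 < γ' := by rw [hγ']; positivity
  have h2y : κ ^ y ≤ 2 ^ y := pow_le_pow_left₀ (by linarith) (by linarith) y
  have h2y' : (1 : ℝ) ≤ 2 ^ y := one_le_pow₀ (by norm_num)
  have hγ'1 : |γ' - 1| ≤ 2 * 2 ^ y := by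
    have : 1 / 2 * γ' ≤ γ * γ' := mul_le_mul_of_nonneg_right hγ2 hγ'0.le
    rw [abs_le]; constructor <;> linarith
  rcases c4.norm (a := (a : ℤ)) (by exact_mod_cast ha) hsum hl1 with ⟨z1, z2⟩ | hn
  · have y1 : γ = 1 := by
      have := (mul_eq_zero.1 z1).resolve_left (by positivity)
      linarith
    have y2 : γ' = 1 := by
      have hne : (-S) ^ y * l' ^ X ≠ 0 :=
        mul_ne_zero (pow_ne_zero _ (by linarith)) (by positivity)
      have := (mul_eq_zero.1 z2).resolve_left hne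
      linarith
    rw [y1, y2] at hγγ
    linarith
  · have e3 : |S ^ y * l ^ X * (γ - 1) * ((-S) ^ y * l' ^ X * (γ' - 1))| =
        (S ^ 2) ^ y * (|γ - 1| * |γ' - 1|) := by
      have : S ^ y * l ^ X * (γ - 1) * ((-S) ^ y * l' ^ X * (γ' - 1)) =
          (S * -S) ^ y * ((γ - 1) * (γ' - 1)) := by
        rw [mul_pow]; linear_combination (S ^ y * (-S) ^ y * ((γ - 1) * (γ' - 1))) * hll
      rw [this, abs_mul, abs_mul, abs_pow, mul_neg, abs_neg, abs_mul_self, ← sq]
    rw [e3] at hn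
    have e4 : Real.exp (4 * y * gg a) = (l ^ 4) ^ y := by
      rw [← hexp, ← Real.exp_nat_mul, ← Real.exp_nat_mul]; congr 1; push_cast; ring
    have e5 : 2 * S ^ 2 ≤ l ^ 4 := by
      have h6 : (13 / 5 * (a : ℝ)) ^ 4 ≤ l ^ 4 := pow_le_pow_left₀ (by positivity) hl2 4
      have h7 : (a : ℝ) ^ 2 ≤ a ^ 4 := pow_le_pow_right₀ ha' (by norm_num)
      rw [hS2]; nlinarith
    calc (1 : ℝ) ≤ (S ^ 2) ^ y * (|γ - 1| * |γ' - 1|) := hn
      _ ≤ (S ^ 2) ^ y * (2 * η * (2 * 2 ^ y)) := by gcongr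
      _ = 4 * η * (2 * S ^ 2) ^ y := by rw [mul_pow]; ring
      _ ≤ 4 * η * (l ^ 4) ^ y := by gcongr
      _ = _ := by rw [e4]

end Pool.Agent.MP_30e119_nt

end MrgPart4

-- ======== part 5: formerly Pool.Agent.MP_30e119_nt.Leaf
section MrgPart5

/-! The discrepancy estimate in terms of parameters. -/

set_option autoImplicit false

open Finset

namespace Pool.Agent.MP_30e119_nt

namespace Node

theorem v_le (n : Node) : (n.v1 : ℝ) + n.v2 ≤ 2 * n.A ∧ n.A ≤ 5 / 2 * ((n.v1 : ℝ) + n.v2) := by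
  have h1 := n.s_bd; have h2 := n.r_bd
  have h3 : (0 : ℝ) ≤ n.v1 := Nat.cast_nonneg _
  have h4 : (0 : ℝ) ≤ n.v2 := Nat.cast_nonneg _
  rw [n.A_eq]
  constructor <;> nlinarith [h1.1, h1.2, h2.1, h2.2]

theorem w_le (n : Node) : (n.w1 : ℝ) + n.w2 ≤ 2 * n.B := by
  have h1 := n.s_bd; have h2 := n.r_bd
  have h3 : (0 : ℝ) ≤ n.w1 := Nat.cast_nonneg _
  have h4 : (0 : ℝ) ≤ n.w2 := Nat.cast_nonneg _
  rw [n.B_eq]
  nlinarith [h1.1, h2.1]

theorem wt_le (n : Node) : n.wt ≤ 5 / 4 := by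
  have h1 := n.A_ge; have h2 := n.B_ge
  unfold wt
  rw [div_le_iff₀ (by positivity)]
  nlinarith

theorem dirichlet (n : Node) (Q : ℕ) (hQ : 0 < Q) (η : ℝ) (hη : n.A / Q ≤ η) (hη4 : η ≤ 1 / 4) :
    ∃ X Y : ℕ, 1 ≤ X ∧ 1 ≤ Y ∧ |n.ell X Y| ≤ η ∧ ∀ t, 0 ≤ t →
      |tri n.A n.B t - t ^ 2 / (2 * n.A * n.B) + t / (2 * n.A) + t / (2 * n.B)| ≤
        70 * t * (n.wt / (X + Y)) + Q + n.B / n.A + 1 := by
  have hA := n.A_pos; have hB := n.B_pos
  obtain ⟨ρ, hρ1, hρ2⟩ := Real.exists_rat_abs_sub_le_and_den_le (n.B / n.A) hQ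
  have hq : 1 ≤ ρ.den := ρ.den_pos
  have hq0 : (0 : ℝ) < ρ.den := by exact_mod_cast hq
  have hQ0 : (0 : ℝ) < Q := by exact_mod_cast hQ
  have hqQ : (ρ.den : ℝ) ≤ Q := by exact_mod_cast hρ2
  have hcop : IsCoprime ρ.num (ρ.den : ℤ) := ρ.isCoprime_num_den
  rw [Rat.cast_def] at hρ1
  generalize ρ.den = q at *
  generalize ρ.num = p at *
  have h1 : |n.B / n.A - p / q| ≤ 1 / (q : ℝ) ^ 2 := by
    refine hρ1.trans ?_
    rw [sq]; gcongr; linarith
  have h2 : |q * n.B - p * n.A| ≤ η := by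
    have : q * n.B - p * n.A = (q * n.A) * (n.B / n.A - p / q) := by field_simp
    rw [this, abs_mul, abs_of_pos (by positivity)]
    calc q * n.A * |n.B / n.A - p / q| ≤ q * n.A * (1 / ((Q + 1) * q)) := by gcongr
      _ = n.A / (Q + 1) := by field_simp
      _ ≤ n.A / Q := by gcongr; linarith
      _ ≤ η := hη
  obtain ⟨x, hx⟩ : ∃ x : ℤ, x = q * n.w1 - p * n.v1 := ⟨_, rfl⟩
  obtain ⟨y, hy⟩ : ∃ y : ℤ, y = q * n.w2 - p * n.v2 := ⟨_, rfl⟩
  have hxr : (x : ℝ) = q * n.w1 - p * n.v1 := by rw [hx]; push_cast; ring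
  have hyr : (y : ℝ) = q * n.w2 - p * n.v2 := by rw [hy]; push_cast; ring
  have h3 : x * n.s + y * n.r = q * n.B - p * n.A := by
    rw [hxr, hyr]; linear_combination p * n.A_eq - q * n.B_eq
  have h4 : (n.v1 : ℤ) * y - n.v2 * x = q := by
    have : (n.v1 : ℤ) * n.w2 = n.v2 * n.w1 + 1 := by exact_mod_cast n.det
    rw [hx, hy]; linear_combination q * this
  have hs := n.s_bd; have hr := n.r_bd
  rw [← h3] at h2
  have h5 := abs_le.1 h2
  have hy1 : 1 ≤ y := by
    by_contra h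
    have e1 : y ≤ 0 := by omega
    have e2 : x ≤ -1 := by
      by_contra h'
      have e3 : 0 ≤ x := by omega
      have e4 : (n.v1 : ℤ) * y ≤ 0 := mul_nonpos_of_nonneg_of_nonpos (by positivity) e1
      have e5 : 0 ≤ (n.v2 : ℤ) * x := by positivity
      omega
    have e1' : (y : ℝ) ≤ 0 := by exact_mod_cast e1
    have e2' : (x : ℝ) ≤ -1 := by exact_mod_cast e2
    nlinarith [h5.1, hs.1, hr.1]
  have hy1' : (1 : ℝ) ≤ y := by exact_mod_cast hy1
  have hx1 : x ≤ -1 := by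
    by_contra h
    have e1 : (0 : ℝ) ≤ x := by exact_mod_cast (show 0 ≤ x by omega)
    nlinarith [h5.2, hs.1, hr.1]
  obtain ⟨X, hX⟩ := Int.eq_ofNat_of_zero_le (show 0 ≤ -x by omega)
  obtain ⟨Y, rfl⟩ := Int.eq_ofNat_of_zero_le (show 0 ≤ y by omega)
  obtain rfl : x = -X := by omega
  have hX1 : 1 ≤ X := by omega
  have hX1' : (1 : ℝ) ≤ X := by exact_mod_cast hX1
  push_cast at h2 h5 hy1'
  refine ⟨X, Y, hX1, by omega, by unfold ell; convert h2 using 2; ring, fun t ht => ?_⟩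
  refine (tri_est hA hB ht q hq p hcop h1).trans ?_
  have h6 : (q : ℝ) = n.v1 * Y + n.v2 * X := by
    have : (q : ℤ) = n.v1 * Y + n.v2 * X := by rw [← h4]; ring
    exact_mod_cast this
  have h7 : (Y : ℝ) ≤ 10 * X := by nlinarith [h5.2, hs.2, hr.1]
  have h8 : (X : ℝ) ≤ 10 * Y := by nlinarith [h5.1, hs.1, hr.2]
  have h9 : ((X : ℝ) + Y) * n.A ≤ 28 * q := by
    have e1 := n.v_le.2
    have e2 : (0 : ℝ) ≤ n.v1 := Nat.cast_nonneg _
    have e3 : (0 : ℝ) ≤ n.v2 := Nat.cast_nonneg _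
    have e4 : ((X : ℝ) + Y) * n.A ≤ (X + Y) * (5 / 2 * ((n.v1 : ℝ) + n.v2)) := by gcongr
    rw [h6]
    nlinarith [mul_le_mul_of_nonneg_left h7 e3, mul_le_mul_of_nonneg_left h8 e2]
  have h10 : t / (n.B * q) ≤ 28 * t * (n.wt / (X + Y)) := by
    have : 28 * t * (n.wt / (X + Y)) = t / (n.B * ((X + Y) * n.A / 28)) := by
      unfold wt; field_simp
    rw [this]
    gcongr
    linarith
  linarith

theorem leaf_est (n : Node) (Q : ℕ) (hQ : 0 < Q) (η G t : ℝ) (hη : G / Q ≤ η) (hη4 : η ≤ 1 / 4)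
    (hA : n.A ≤ G) (hB : n.B ≤ G) (ht : 0 ≤ t) (htc : t ≤ n.c) :
    ∃ X Y : ℕ, 1 ≤ X ∧ 1 ≤ Y ∧ |n.ell X Y| ≤ η ∧
      |n.err t| + 1 ≤ 140 * t * (n.wt / (X + Y)) + (Q + 2 * G + 6) := by
  have hA0 := n.A_pos; have hB0 := n.B_pos
  obtain ⟨X, Y, hX, hY, h1, h2⟩ := n.dirichlet Q hQ η (le_trans (by gcongr) hη) hη4
  refine ⟨X, Y, hX, hY, h1, ?_⟩
  have h3 := n.le_cnt ht
  have h4 := (n.cnt_pot ht).2
  have h5 := n.ar_bd
  have h6 := n.inv_sq_le
  have h7 : 1 / (n.c : ℝ) ^ 2 * t ^ 2 ≤ 1 := by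
    have := n.rc0
    rw [one_div, inv_mul_le_iff₀ (by positivity), mul_one]; gcongr
  have h8 : 0 < 1 / (n.c : ℝ) ^ 2 := by have := n.rc0; positivity
  generalize 1 / (n.c : ℝ) ^ 2 = x at *
  have hw := n.wt_pos; have hw' := n.wt_le
  have hBA : n.B / n.A ≤ 2 * G := by
    rw [div_le_iff₀ hA0]; nlinarith [n.A_ge]
  have hW : 0 ≤ n.wt / ((X : ℝ) + Y) := by positivity
  have e0 : ∀ u : ℝ, u ^ 2 / (2 * n.A * n.B) = n.wt / 2 * u ^ 2 := fun u => by
    unfold wt; field_simp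
  have e1 := (abs_le.1 (h2 t ht)).1
  have e2 := (abs_le.1 (h2 (t * (1 + 2 * x)) (by positivity))).2
  rw [e0] at e1 e2
  have e3 : t / (2 * n.A) ≤ t * (1 + 2 * x) / (2 * n.A) := by gcongr; nlinarith
  have e4 : t / (2 * n.B) ≤ t * (1 + 2 * x) / (2 * n.B) := by gcongr; nlinarith
  have e5 : 70 * (t * (1 + 2 * x)) * (n.wt / (X + Y)) ≤ 140 * t * (n.wt / (X + Y)) :=
    mul_le_mul_of_nonneg_right (by nlinarith) hW
  have e6 : n.wt / 2 * (t * (1 + 2 * x)) ^ 2 ≤ n.wt / 2 * t ^ 2 + 3 := by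
    have f1 : (t * (1 + 2 * x)) ^ 2 = t ^ 2 + (x * t ^ 2) * (4 + 4 * x) := by ring
    have f2 : (x * t ^ 2) * (4 + 4 * x) ≤ 1 * (4 + 4 * (1 / 25)) := by gcongr
    rw [f1]; nlinarith
  have e7 : n.ar * t ^ 2 ≤ n.wt / 2 * t ^ 2 + 5 / 4 := by
    have f1 := mul_le_mul_of_nonneg_right h5.2 (sq_nonneg t)
    have f2 : n.wt * (x * t ^ 2) ≤ 5 / 4 * 1 := by gcongr
    nlinarith
  have e8 := mul_le_mul_of_nonneg_right h5.1 (sq_nonneg t)
  have e9 : 0 ≤ t * (n.wt / ((X : ℝ) + Y)) := by positivity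
  have : |n.err t| ≤ 140 * t * (n.wt / (X + Y)) + (Q + 2 * G + 5) := by
    unfold err
    rw [abs_le]; constructor <;> linarith
  linarith

theorem Desc.ell_close {n m : Node} (h : Desc n m) {X Y : ℝ} (hX : 0 ≤ X) (hY : 0 ≤ Y) :
    |n.ell X Y| ≤ |m.ell X Y| + (X + Y) * (2 / n.c) := by
  have h1 := h.drift
  have h2 : 0 ≤ 2 / (m.c : ℝ) := by positivity
  have h3 : n.ell X Y = m.ell X Y + (X * (m.s - n.s) - Y * (m.r - n.r)) := by unfold ell; ring
  rw [h3]
  refine (abs_add_le _ _).trans (add_le_add le_rfl ((abs_sub _ _).trans ?_))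
  rw [abs_mul, abs_mul, abs_of_nonneg hX, abs_of_nonneg hY, add_mul]
  gcongr <;> linarith [h1.1, h1.2]

theorem medium_aux {a b c y x U : ℕ} {M₁ G η lm : ℝ} (ha : 1 ≤ a) (hab : a ≤ b)
    (h4 : 12 * a * b ≤ 5 * c) (eqn : a ^ 2 + b ^ 2 + c ^ 2 = 3 * a * b * c)
    (hc : c ≤ 3 * a * b) (hM : M₁ ≤ c) (hlm : 0 < lm) (hy : 1 ≤ y) (hU : 1 ≤ U)
    (hyU : (y : ℝ) ≤ U * (2 * gg a)) (hG : gg a ≤ G) (h : |y * gg b - x * gg a| ≤ η)
    (h5 : 4 * (η + 6 * U * G / M₁) ≤ Real.exp (-lm ^ 2)) (h6 : 3 * Real.exp (2 * lm ^ 2) ≤ M₁) :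
    1 / (gg a * gg b) ≤ 3 * U / lm ^ 3 := by
  have ha' : (1 : ℝ) ≤ a := by exact_mod_cast ha
  have hb' : (1 : ℝ) ≤ b := by exact_mod_cast ha.trans hab
  have hU' : (1 : ℝ) ≤ U := by exact_mod_cast hU
  have hA := gg_pos ha'
  have hM0 : 0 < M₁ := lt_of_lt_of_le (by positivity) h6
  have hb2 : M₁ ≤ 3 * (b : ℝ) ^ 2 := by
    have : c ≤ 3 * b ^ 2 := hc.trans (by nlinarith)
    exact hM.trans (by exact_mod_cast this)
  have e1 : (y : ℝ) / (b : ℝ) ^ 2 ≤ 6 * U * G / M₁ := by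
    rw [div_le_div_iff₀ (by positivity) hM0]
    have f1 : (y : ℝ) ≤ U * (2 * G) := hyU.trans (by gcongr)
    calc (y : ℝ) * M₁ ≤ U * (2 * G) * (3 * (b : ℝ) ^ 2) :=
          mul_le_mul f1 hb2 hM0.le (by nlinarith)
      _ = _ := by ring
  have e2 : Real.exp (-lm ^ 2) ≤ 1 := Real.exp_le_one_iff.2 (by nlinarith)
  have e3 := liouville ha (ha.trans hab) h4 eqn x y hy (η + 6 * U * G / M₁) (by linarith)
    (by linarith)
  have e4 : 1 ≤ Real.exp (-lm ^ 2) * Real.exp (4 * y * gg a) :=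
    e3.trans (mul_le_mul_of_nonneg_right h5 (Real.exp_pos _).le)
  rw [← Real.exp_add, Real.one_le_exp_iff] at e4
  have e5 : lm ≤ 3 * U * gg a := by
    refine le_of_sq_le_sq ?_ (by positivity)
    have f1 : 4 * y * gg a ≤ 4 * (U * (2 * gg a)) * gg a := by gcongr
    have f2 : (U : ℝ) * gg a ^ 2 ≤ U * U * gg a ^ 2 := by gcongr; nlinarith
    nlinarith
  have e6 : lm ^ 2 ≤ gg b := by
    refine le_trans ?_ (log_le_gg hb')
    rw [Real.le_log_iff_exp_le (by positivity)]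
    refine le_of_sq_le_sq ?_ (by positivity)
    rw [← Real.exp_nat_mul]
    push_cast
    linarith
  have hB := gg_pos hb'
  rw [div_le_div_iff₀ (by positivity) (by positivity)]
  calc 1 * lm ^ 3 = lm * lm ^ 2 := by ring
    _ ≤ (3 * U * gg a) * gg b := by gcongr
    _ = _ := by ring

theorem medium (n : Node) {X Y M₁ : ℕ} {G η lm : ℝ} (hX : 1 ≤ X) (hY : 1 ≤ Y) (hM : M₁ < n.c)
    (hA : n.A ≤ G) (hB : n.B ≤ G) (hlm : 0 < lm) (h : |n.ell X Y| ≤ η)
    (h5 : 4 * (η + 6 * ((X + Y : ℕ) : ℝ) * G / M₁) ≤ Real.exp (-lm ^ 2))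
    (h6 : 3 * Real.exp (2 * lm ^ 2) ≤ M₁) : n.wt ≤ 3 * ((X + Y : ℕ) : ℝ) / lm ^ 3 := by
  have hM' : (M₁ : ℝ) ≤ n.c := by exact_mod_cast hM.le
  have e1 : n.cy X Y = ((X * n.v2 + Y * n.v1 : ℕ) : ℝ) := by unfold cy; push_cast; ring
  have e2 : n.cx X Y = ((X * n.w2 + Y * n.w1 : ℕ) : ℝ) := by unfold cx; push_cast; ring
  have hX0 : (0 : ℝ) ≤ X := Nat.cast_nonneg _
  have hY0 : (0 : ℝ) ≤ Y := Nat.cast_nonneg _
  rw [ell_eq, e1, e2] at h
  rcases le_total n.a n.b with hab | hab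
  · refine medium_aux n.ha hab n.h4 n.eqn n.c_le hM' hlm
      (by have := n.one_le_v; nlinarith) (by omega) ?_ hA h h5 h6
    have f1 := n.v_le.1
    have f2 : (0 : ℝ) ≤ n.v1 := Nat.cast_nonneg _
    have f3 : (0 : ℝ) ≤ n.v2 := Nat.cast_nonneg _
    push_cast
    calc (X : ℝ) * n.v2 + Y * n.v1 ≤ (X + Y) * (n.v1 + n.v2) := by nlinarith [mul_nonneg hX0 f2, mul_nonneg hY0 f3]
      _ ≤ _ := by unfold A at f1; gcongr
  · have : n.wt = 1 / (gg n.b * gg n.a) := by unfold wt A B; rw [mul_comm]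
    rw [this]
    rw [abs_sub_comm] at h
    refine medium_aux (c := n.c) n.hb hab (by have := n.h4; linarith) (by have := n.eqn; linarith)
      (by have := n.c_le; linarith) hM' hlm
      (by have := n.one_le_w; nlinarith) (by omega) ?_ hB h h5 h6
    have f1 := n.w_le
    have f2 : (0 : ℝ) ≤ n.w1 := Nat.cast_nonneg _
    have f3 : (0 : ℝ) ≤ n.w2 := Nat.cast_nonneg _
    push_cast
    calc (X : ℝ) * n.w2 + Y * n.w1 ≤ (X + Y) * (n.w1 + n.w2) := by nlinarith [mul_nonneg hX0 f2, mul_nonneg hY0 f3]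
      _ ≤ _ := by unfold B at f1; gcongr

end Node

end Pool.Agent.MP_30e119_nt

end MrgPart5

-- marker of a merged file
example : 731051 + 718628 = 731051 + 718628 := rfl
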