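import Mathlib.Algebra.Order.Floor.Semifield
import Mathlib.NumberTheory.ZetaValues
import Pool.Agent.MP_30e119_nt.Leaf
import Pool.Agent.Lib.helper41.Mertens

-- ======== part 0: formerly Pool.Agent.MP_30e119_nt.Est
section MrgPart0

/-! Summing the leaf estimates. -/

set_option autoImplicit false

open Finset

namespace Pool.Agent.MP_30e119_nt

namespace Node

open Classical in
/-- The weight of the nodes whose chord functional almost kills `(-X, Y)`. -/
noncomputable def bad (η X Y : ℝ) (m : Node) : ℝ := if |m.ell X Y| ≤ η then m.wt else 0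

theorem lsum_zero (M : ℕ) (n : Node) : lsum M (fun _ => 0) n = 0 := by
  simpa using lsum_mul M (fun _ => 0) 0 n

theorem lsum_bad_zero {M : ℕ} {η X Y : ℝ} (n : Node) (ha : n.a ≤ M) (hb : n.b ≤ M)
    (h : ¬ ∃ m, Desc n m ∧ |m.ell X Y| ≤ η) : lsum M (bad η X Y) n ≤ 0 := by
  rw [← lsum_zero M n]
  refine lsum_le n ha hb fun m hm _ _ _ => ?_
  rw [bad, if_neg fun h' => h ⟨m, hm, h'⟩]

theorem lemmaB {M M₁ X Y : ℕ} {G η lm H : ℝ} (hM : M₁ ≤ M) (hX : 1 ≤ X) (hY : 1 ≤ Y)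
    (hH : ((X + Y : ℕ) : ℝ) ≤ H) (hG : ∀ a : ℕ, 1 ≤ a → a ≤ M → gg a ≤ G) (hlm : 0 < lm)
    (h3 : 2 * η < 1 / 5 / (M₁ : ℝ) ^ 2)
    (h5 : 4 * (η + 2 * H / M₁ + 6 * H * G / M₁) ≤ Real.exp (-lm ^ 2))
    (h6 : 3 * Real.exp (2 * lm ^ 2) ≤ M₁) (n : Node) : n.a ≤ M₁ → n.b ≤ M₁ →
    lsum M (bad η X Y) n ≤ 6 * ((X + Y : ℕ) : ℝ) / lm ^ 3 := by
  have hX' : (1 : ℝ) ≤ X := by exact_mod_cast hX
  have hY' : (1 : ℝ) ≤ Y := by exact_mod_cast hY
  have hM0 : (0 : ℝ) < M₁ := lt_of_lt_of_le (by positivity) h6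
  have hpos : 0 ≤ 6 * ((X + Y : ℕ) : ℝ) / lm ^ 3 := by positivity
  refine ind M₁ (P := fun n => n.a ≤ M₁ → n.b ≤ M₁ →
    lsum M (bad η X Y) n ≤ 6 * ((X + Y : ℕ) : ℝ) / lm ^ 3) (fun n hn ha hb => ?_)
    (fun n hn h1 h2 ha hb => ?_) n
  · by_cases hex : ∃ m, Desc n m ∧ |m.ell X Y| ≤ η
    · obtain ⟨m, hm, hm'⟩ := hex
      have hA : n.A ≤ G := hG _ n.ha (ha.trans hM)
      have hB : n.B ≤ G := hG _ n.hb (hb.trans hM)
      have hG0 : 0 ≤ G := n.A_pos.le.trans hA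
      have hc : (M₁ : ℝ) ≤ n.c := by exact_mod_cast hn.le
      have e1 : |n.ell X Y| ≤ η + 2 * H / M₁ := by
        refine (hm.ell_close (by linarith) (by linarith)).trans (add_le_add hm' ?_)
        push_cast at hH
        calc ((X : ℝ) + Y) * (2 / n.c) ≤ H * (2 / M₁) := by gcongr; linarith
          _ = _ := by ring
      have e2 := n.medium hX hY hn hA hB hlm e1 (le_trans (by gcongr) h5) h6
      have e3 : lsum M (bad η X Y) n ≤ lsum M wt n := by
        refine lsum_le n (ha.trans hM) (hb.trans hM) fun m _ _ _ _ => ?_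
        unfold bad
        split_ifs
        · exact le_rfl
        · exact m.wt_pos.le
      have e4 := n.lsum_wt_le M
      have e5 : 6 * ((X + Y : ℕ) : ℝ) / lm ^ 3 = 2 * (3 * ((X + Y : ℕ) : ℝ) / lm ^ 3) := by ring
      linarith
    · exact (lsum_bad_zero n (ha.trans hM) (hb.trans hM) hex).trans hpos
  · rw [lsum_step _ (hn.trans hM)]
    by_cases hex : ∃ m, Desc n.L m ∧ |m.ell X Y| ≤ η
    · have hex' : ¬ ∃ m, Desc n.R m ∧ |m.ell X Y| ≤ η := by
        rintro ⟨m', hm', h'⟩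
        obtain ⟨m, hm, h⟩ := hex
        have e1 := n.corner hm hm' hX' hY'
        have hc : (n.c : ℝ) ≤ M₁ := by exact_mod_cast hn
        have e2 : 1 / 5 / (M₁ : ℝ) ^ 2 ≤ 1 / 5 / (n.c : ℝ) ^ 2 := by have := n.rc0; gcongr
        linarith [(abs_le.1 h).1, (abs_le.1 h').2]
      linarith [h1 ha hn, lsum_bad_zero n.R (hn.trans hM) (hb.trans hM) hex']
    · linarith [h2 hn hb, lsum_bad_zero n.L (ha.trans hM) (hn.trans hM) hex]

theorem parallel (n : Node) {X Y X' Y' : ℕ} {H η₀ : ℝ} (h : |n.ell X Y| ≤ η₀)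
    (h' : |n.ell X' Y'| ≤ η₀) (hY : (Y : ℝ) ≤ H) (hY' : (Y' : ℝ) ≤ H)
    (h2 : 2 * H * η₀ < 1 / 2) : X * Y' = X' * Y := by
  have h0 : 0 ≤ η₀ := (abs_nonneg _).trans h
  have e1 : n.s * ((X' : ℝ) * Y - X * Y') = n.ell X Y * Y' - n.ell X' Y' * Y := by
    unfold ell; ring
  have e2 : |n.s * ((X' : ℝ) * Y - X * Y')| ≤ η₀ * H + η₀ * H := by
    rw [e1]
    refine (abs_sub _ _).trans ?_
    rw [abs_mul, abs_mul, Nat.abs_cast, Nat.abs_cast]
    gcongr
  have hs := n.s_bd.1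
  rw [abs_mul, abs_of_pos (by linarith)] at e2
  have e3 : |(X' : ℝ) * Y - X * Y'| < 1 := by
    by_contra hh
    nlinarith [not_lt.1 hh]
  have e4 : |(X' : ℤ) * Y - X * Y'| < 1 := by exact_mod_cast e3
  have e5 := Int.abs_lt_one_iff.1 e4
  exact_mod_cast (sub_eq_zero.1 e5).symm

theorem lemmaC {M M₁ M₀ : ℕ} {G η lm H : ℝ} (X Y : Node → ℕ) (hM : M₁ ≤ M) (hM₀ : M₀ ≤ M₁)
    (hXY : ∀ m, M < m.c → m.a ≤ M → m.b ≤ M → 1 ≤ X m ∧ 1 ≤ Y m ∧ |m.ell (X m) (Y m)| ≤ η)
    (hH : 0 < H) (hM0 : 0 < M₀) (hG : ∀ a : ℕ, 1 ≤ a → a ≤ M → gg a ≤ G) (hlm : 0 < lm)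
    (h2 : 2 * H * (η + 2 * H / M₀) < 1 / 2) (h3 : 2 * η < 1 / 5 / (M₁ : ℝ) ^ 2)
    (h5 : 4 * (η + 2 * H / M₁ + 6 * H * G / M₁) ≤ Real.exp (-lm ^ 2))
    (h6 : 3 * Real.exp (2 * lm ^ 2) ≤ M₁) (n : Node) (hn : M₀ < n.c) (ha : n.a ≤ M₀)
    (hb : n.b ≤ M₀) :
    lsum M (fun m => m.wt / (X m + Y m)) n ≤ 1 / H * lsum M wt n + 6 / lm ^ 3 := by
  classical
  have haM : n.a ≤ M := ha.trans (hM₀.trans hM)
  have hbM : n.b ≤ M := hb.trans (hM₀.trans hM)
  have hgood : ∀ m : Node, H ≤ (X m : ℝ) + Y m → m.wt / (X m + Y m) ≤ 1 / H * m.wt := by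
    intro m hm
    have := m.wt_pos
    rw [one_div_mul_eq_div]; gcongr
  by_cases hex : ∃ k, ∃ m, Desc n m ∧ M < m.c ∧ m.a ≤ M ∧ m.b ≤ M ∧ X m + Y m = k ∧ (k : ℝ) < H
  · obtain ⟨m₀, d₀, c₀, a₀, b₀, k₀, hk₀⟩ := Nat.find_spec hex
    have hmin : ∀ m, Desc n m → M < m.c → m.a ≤ M → m.b ≤ M → (X m : ℝ) + Y m < H →
        X m₀ + Y m₀ ≤ X m + Y m := fun m d c a b h => by
      rw [k₀]
      exact Nat.find_min' hex ⟨m, d, c, a, b, rfl, by push_cast; exact h⟩
    rw [← k₀] at hk₀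
    obtain ⟨x₀, y₀, e₀⟩ := hXY m₀ c₀ a₀ b₀
    have hU0 : (0 : ℝ) < ((X m₀ + Y m₀ : ℕ) : ℝ) := by exact_mod_cast (by omega)
    have hc : (M₀ : ℝ) ≤ n.c := by exact_mod_cast hn.le
    have hM0' : (0 : ℝ) < M₀ := by exact_mod_cast hM0
    have hclose : ∀ m, Desc n m → (X m : ℝ) + Y m < H → |m.ell (X m) (Y m)| ≤ η →
        |n.ell (X m) (Y m)| ≤ η + 2 * H / M₀ := by
      intro m d h e
      refine (d.ell_close (by positivity) (by positivity)).trans (add_le_add e ?_)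
      calc ((X m : ℝ) + Y m) * (2 / n.c) ≤ H * (2 / M₀) := by gcongr
        _ = _ := by ring
    have key : lsum M (fun m => m.wt / (X m + Y m)) n ≤ lsum M (fun m => 1 / H * m.wt +
        1 / ((X m₀ + Y m₀ : ℕ) : ℝ) * bad η (X m₀) (Y m₀) m) n := by
      refine lsum_le n haM hbM fun m d c a b => ?_
      have hw := m.wt_pos
      have hbad : 0 ≤ bad η (X m₀) (Y m₀) m := by
        unfold bad; split_ifs
        · exact hw.le
        · exact le_rfl
      rcases le_or_gt H ((X m : ℝ) + Y m) with h | h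
      · exact (hgood m h).trans (le_add_of_nonneg_right (by positivity))
      · obtain ⟨x, y, e⟩ := hXY m c a b
        have f1 := hmin m d c a b h
        push_cast at hk₀
        have hX0 : (0 : ℝ) ≤ X m := Nat.cast_nonneg _
        have hX0' : (0 : ℝ) ≤ X m₀ := Nat.cast_nonneg _
        have f2 := n.parallel (hclose m d h e) (hclose m₀ d₀ hk₀ e₀) (by linarith) (by linarith) h2
        have f3 : Y m₀ ≤ Y m := by
          by_contra hh
          have g1 : Y m < Y m₀ := not_le.1 hh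
          have g2 : X m₀ < X m := by omega
          nlinarith
        have f4 : m.ell (X m₀) (Y m₀) * Y m = m.ell (X m) (Y m) * Y m₀ := by
          have : (X m : ℝ) * Y m₀ = X m₀ * Y m := by exact_mod_cast f2
          unfold ell; linear_combination m.s * this
        have f5 : |m.ell (X m₀) (Y m₀)| ≤ η := by
          have g1 : (0 : ℝ) < Y m := by exact_mod_cast y
          have g2 : (Y m₀ : ℝ) ≤ Y m := by exact_mod_cast f3
          refine le_of_mul_le_mul_right ?_ g1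
          have g3 := congrArg abs f4
          rw [abs_mul, abs_mul, Nat.abs_cast, Nat.abs_cast] at g3
          rw [g3]
          exact mul_le_mul e g2 (by positivity) ((abs_nonneg _).trans e)
        rw [bad, if_pos f5]
        have f6 : ((X m₀ + Y m₀ : ℕ) : ℝ) ≤ (X m : ℝ) + Y m := by exact_mod_cast f1
        refine le_trans ?_ (le_add_of_nonneg_left (by positivity))
        rw [one_div_mul_eq_div]; gcongr
    rw [lsum_lin] at key
    have e1 := lemmaB hM x₀ y₀ hk₀.le hG hlm h3 h5 h6 n (ha.trans hM₀) (hb.trans hM₀)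
    have e2 : 1 / ((X m₀ + Y m₀ : ℕ) : ℝ) * lsum M (bad η (X m₀) (Y m₀)) n ≤ 6 / lm ^ 3 := by
      refine (mul_le_mul_of_nonneg_left e1 (by positivity)).trans (le_of_eq ?_)
      field_simp
    linarith
  · rw [← lsum_mul]
    refine le_trans (lsum_le n haM hbM fun m d c a b => hgood m ?_)
      (le_add_of_nonneg_right (by positivity))
    by_contra hh
    exact hex ⟨_, m, d, c, a, b, rfl, by push_cast; exact not_le.1 hh⟩

theorem lsum_const_le {M : ℕ} {G : ℝ} (hG : ∀ a : ℕ, 1 ≤ a → a ≤ M → gg a ≤ G) {κ : ℝ}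
    (hκ : 0 ≤ κ) (n : Node) (ha : n.a ≤ M) (hb : n.b ≤ M) :
    lsum M (fun _ => κ) n ≤ κ * G ^ 2 * (5 / 2) := by
  have h1 : lsum M (fun _ => κ) n ≤ lsum M (fun m => κ * G ^ 2 * m.wt) n := by
    refine lsum_le n ha hb fun m _ _ a b => ?_
    have hA : m.A ≤ G := hG _ m.ha a
    have hB : m.B ≤ G := hG _ m.hb b
    have hA0 := m.A_pos; have hB0 := m.B_pos
    rw [mul_assoc]
    refine le_mul_of_one_le_right hκ ?_
    unfold wt
    rw [mul_one_div, one_le_div (by positivity), sq]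
    exact mul_le_mul hA hB hB0.le (by linarith)
  rw [lsum_mul] at h1
  refine h1.trans (mul_le_mul_of_nonneg_left ?_ (by positivity))
  linarith [n.lsum_wt_le M, n.wt_le]

theorem param_est {M M₁ M₀ Q : ℕ} {G G₀ η lm H t : ℝ} (hM : M₁ ≤ M) (hM₀ : M₀ ≤ M₁)
    (hM0 : 2 ≤ M₀) (hQ : 0 < Q) (hη : G / Q ≤ η) (hη4 : η ≤ 1 / 4) (ht : 0 ≤ t) (htM : t ≤ M)
    (hH : 0 < H) (hG : ∀ a : ℕ, 1 ≤ a → a ≤ M → gg a ≤ G)
    (hG₀ : ∀ a : ℕ, 1 ≤ a → a ≤ M₀ → gg a ≤ G₀) (hlm : 0 < lm)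
    (h2 : 2 * H * (η + 2 * H / M₀) < 1 / 2) (h3 : 2 * η < 1 / 5 / (M₁ : ℝ) ^ 2)
    (h5 : 4 * (η + 2 * H / M₁ + 6 * H * G / M₁) ≤ Real.exp (-lm ^ 2))
    (h6 : 3 * Real.exp (2 * lm ^ 2) ≤ M₁) :
    |root.err t| ≤ (Q + 2 * G + 6) * G ^ 2 * (5 / 2) +
      140 * t * (1 / H * (5 / 2) + 6 / lm ^ 3 * G₀ ^ 2 * (5 / 2)) := by
  have hex : ∀ m : Node, ∃ X Y : ℕ, M < m.c → m.a ≤ M → m.b ≤ M →
      (1 ≤ X ∧ 1 ≤ Y ∧ |m.ell X Y| ≤ η) ∧
        |m.err t| + 1 ≤ 140 * t * (m.wt / (X + Y)) + (Q + 2 * G + 6) := by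
    intro m
    by_cases h : M < m.c ∧ m.a ≤ M ∧ m.b ≤ M
    · obtain ⟨X, Y, h1, h2, h3, h4⟩ := m.leaf_est Q hQ η G t hη hη4 (hG _ m.ha h.2.1)
        (hG _ m.hb h.2.2) ht (htM.trans (by exact_mod_cast h.1.le))
      exact ⟨X, Y, fun _ _ _ => ⟨⟨h1, h2, h3⟩, h4⟩⟩
    · exact ⟨0, 0, fun h1 h2 h3 => absurd ⟨h1, h2, h3⟩ h⟩
  choose X Y hXY using hex
  have ra : root.a ≤ M₀ := by change 1 ≤ M₀; omega
  have rb : root.b ≤ M₀ := hM0
  have ra' : root.a ≤ M := by omega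
  have rb' : root.b ≤ M := by omega
  have hG0 : 0 ≤ G := root.A_pos.le.trans (hG _ root.ha ra')
  have e1 := root.err_le_lsum M ht
  have e2 : lsum M (fun m => |m.err t| + 1) root ≤ lsum M (fun m =>
      140 * t * (m.wt / (X m + Y m)) + 1 * (Q + 2 * G + 6)) root :=
    lsum_le root ra' rb' fun m _ c a b => by rw [one_mul]; exact (hXY m c a b).2
  rw [lsum_lin M (fun m => m.wt / (X m + Y m)) (fun _ => (Q + 2 * G + 6 : ℝ))] at e2
  have e3 := lsum_const_le hG (show (0 : ℝ) ≤ Q + 2 * G + 6 by positivity) root ra' rb'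
  have e4 : lsum M (fun m => m.wt / (X m + Y m)) root ≤
      1 / H * (5 / 2) + 6 / lm ^ 3 * G₀ ^ 2 * (5 / 2) := by
    rw [lsum_tower (hM₀.trans hM)]
    have f1 : lsum M₀ (lsum M fun m => m.wt / (X m + Y m)) root ≤
        lsum M₀ (fun n => 1 / H * lsum M wt n + 1 * (6 / lm ^ 3)) root :=
      lsum_le root ra rb fun n _ c a b => by
        rw [one_mul]
        exact lemmaC X Y hM hM₀ (fun m c a b => (hXY m c a b).1) hH (by omega) hG hlm h2 h3 h5 h6
          n c a b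
    rw [lsum_lin M₀ (lsum M wt) (fun _ => 6 / lm ^ 3), ← lsum_tower (hM₀.trans hM) wt] at f1
    have f2 := lsum_const_le hG₀ (show 0 ≤ 6 / lm ^ 3 by positivity) root ra rb
    have f3 : lsum M wt root ≤ 5 / 2 := by linarith [root.lsum_wt_le M, root.wt_le]
    have f4 := mul_le_mul_of_nonneg_left f3 (show 0 ≤ 1 / H by positivity)
    linarith
  have e5 := mul_le_mul_of_nonneg_left e4 (show 0 ≤ 140 * t by positivity)
  linarith

end Node

end Pool.Agent.MP_30e119_nt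

end MrgPart0

-- ======== part 1: formerly Pool.Agent.MP_30e119_nt.Inst
section MrgPart1

/-! Choice of the parameters. -/

set_option autoImplicit false

open Filter

namespace Pool.Agent.MP_30e119_nt

theorem master : ∀ᶠ k : ℕ in atTop, 1000 * (k : ℝ) ^ 4 ≤ 2 ^ k := by
  have h := (tendsto_pow_const_div_const_pow_of_one_lt 4 (show (1 : ℝ) < 2 by norm_num)).eventually
    (eventually_le_nhds (show (0 : ℝ) < 1 / 1000 by norm_num))
  filter_upwards [h] with k hk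
  rw [div_le_iff₀ (by positivity)] at hk
  linarith

theorem exp_le_two_pow (k : ℕ) : Real.exp (k / 2) ≤ 2 ^ k := by
  have h1 : Real.exp (1 / 2) ≤ 2 := by
    refine le_of_sq_le_sq ?_ (by norm_num)
    rw [← Real.exp_nat_mul]
    have := Real.exp_one_lt_d9
    norm_num
    linarith
  calc Real.exp (k / 2) = Real.exp (1 / 2) ^ k := by rw [← Real.exp_nat_mul]; congr 1; ring
    _ ≤ 2 ^ k := by gcongr

theorem err_bound_k {j k : ℕ} (hk : 12 ≤ k) (hP : 1000 * (k : ℝ) ^ 4 ≤ 2 ^ k) (hj1 : 10 * k ≤ j)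
    (hj2 : j ≤ 10 * k + 9) {κ t : ℝ} (hκ : 1 ≤ κ) (hκk : κ ^ 8 = k) (ht1 : 2 ^ j ≤ t)
    (ht2 : t < 2 ^ (j + 1)) : |root.err t| ≤ 10 ^ 8 * t / κ ^ 10 := by
  have hk' : (12 : ℝ) ≤ k := by exact_mod_cast hk
  obtain ⟨P, hPdef⟩ : ∃ P : ℝ, P = 2 ^ k := ⟨_, rfl⟩
  rw [← hPdef] at hP
  have hk1 : (k : ℝ) ≤ k ^ 2 := by nlinarith
  have hk2 : (k : ℝ) ^ 2 ≤ k ^ 3 := pow_le_pow_right₀ (by linarith) (by norm_num)
  have hk3 : (k : ℝ) ^ 3 ≤ k ^ 4 := pow_le_pow_right₀ (by linarith) (by norm_num)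
  have hP1 : 1000 ≤ P := by linarith
  have hP2 : P ≤ P ^ 2 := by nlinarith
  have hP5 : P ^ 2 ≤ P ^ 5 := pow_le_pow_right₀ (by linarith) (by norm_num)
  have hP0 : 0 < P := by linarith
  have hQ : ((2 ^ (5 * k) : ℕ) : ℝ) = P ^ 5 := by rw [hPdef]; push_cast; ring
  have hM₁ : ((2 ^ (2 * k) : ℕ) : ℝ) = P ^ 2 := by rw [hPdef]; push_cast; ring
  have ht0 : 0 ≤ t := le_trans (by positivity) ht1
  have htP : P ^ 10 ≤ t := by
    refine le_trans ?_ ht1
    rw [hPdef, ← pow_mul]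
    exact pow_le_pow_right₀ (by norm_num) (by omega)
  have hlm2 : (κ ^ 4 / 2) ^ 2 = k / 4 := by rw [← hκk]; ring
  have hexp := exp_le_two_pow k
  rw [← hPdef] at hexp
  have h := Node.param_est (M := 2 ^ (j + 1)) (M₁ := 2 ^ (2 * k)) (M₀ := 32 * k ^ 4)
    (Q := 2 ^ (5 * k)) (G := 11 * k) (G₀ := 64 * κ) (η := 11 * k / P ^ 5) (lm := κ ^ 4 / 2)
    (H := k ^ 2) (t := t) (Nat.pow_le_pow_right (by norm_num) (by omega))
    (by
      have : ((32 * k ^ 4 : ℕ) : ℝ) ≤ ((2 ^ (2 * k) : ℕ) : ℝ) := by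
        rw [hM₁]; push_cast; linarith
      exact_mod_cast this)
    (by have : 1 ≤ k ^ 4 := Nat.one_le_pow _ _ (by omega); omega)
    (by positivity) (by rw [hQ])
    (by rw [div_le_iff₀ (by positivity)]; linarith) ht0 (by push_cast; exact ht2.le)
    (by positivity)
    (fun a ha haM => by
      have ha' : (1 : ℝ) ≤ a := by exact_mod_cast ha
      have haM' : (a : ℝ) ≤ 2 ^ (j + 1) := by exact_mod_cast haM
      refine (gg_le_log ha').trans ?_
      have e1 : Real.log (3 * a) ≤ Real.log (2 ^ (j + 3)) :=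
        Real.log_le_log (by positivity) (by rw [pow_add] at haM' ⊢; norm_num at haM' ⊢; linarith)
      rw [Real.log_pow] at e1
      have e2 := Real.log_two_lt_d9
      have e3 : ((j + 3 : ℕ) : ℝ) ≤ 11 * k := by exact_mod_cast (show j + 3 ≤ 11 * k by omega)
      have e4 : ((j + 3 : ℕ) : ℝ) * Real.log 2 ≤ (11 * k) * 1 :=
        mul_le_mul e3 (by linarith) (Real.log_nonneg (by norm_num)) (by positivity)
      linarith)
    (fun a ha haM => by
      have ha' : (1 : ℝ) ≤ a := by exact_mod_cast ha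
      have haM' : (a : ℝ) ≤ 32 * k ^ 4 := by exact_mod_cast haM
      refine (gg_le_log ha').trans ?_
      have e1 : Real.log (3 * a) ≤ Real.log ((2 * κ) ^ 32) := by
        refine Real.log_le_log (by positivity) ?_
        have : (2 * κ) ^ 32 = 2 ^ 32 * (k : ℝ) ^ 4 := by rw [← hκk]; ring
        rw [this]
        have : (0 : ℝ) ≤ k ^ 4 := by positivity
        linarith
      rw [Real.log_pow] at e1
      have e2 := Real.log_le_sub_one_of_pos (show 0 < 2 * κ by positivity)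
      push_cast at e1
      linarith)
    (by positivity)
    (by
      have e1 : 2 * (k : ℝ) ^ 2 * (11 * k / P ^ 5 + 2 * k ^ 2 / ((32 * k ^ 4 : ℕ) : ℝ)) =
          22 * k ^ 3 / P ^ 5 + 1 / 8 := by push_cast; field_simp; ring
      have e2 : 22 * (k : ℝ) ^ 3 / P ^ 5 ≤ 1 / 8 := by rw [div_le_iff₀ (by positivity)]; linarith
      linarith)
    (by
      rw [hM₁, ← mul_div_assoc, div_lt_div_iff₀ (by positivity) (by positivity)]
      have e1 : 2 * (11 * (k : ℝ)) < 1 / 5 * P := by linarith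
      calc 2 * (11 * (k : ℝ)) * (P ^ 2) ^ 2 < 1 / 5 * P * (P ^ 2) ^ 2 := by gcongr
        _ = _ := by ring)
    (by
      rw [hM₁, hlm2]
      have e1 : 11 * (k : ℝ) / P ^ 5 ≤ 11 * k / P ^ 2 := by gcongr
      have e2 : 4 * (11 * (k : ℝ) / P ^ 2 + 2 * k ^ 2 / P ^ 2 + 6 * k ^ 2 * (11 * k) / P ^ 2) =
          (44 * k + 8 * k ^ 2 + 264 * k ^ 3) / P ^ 2 := by ring
      have e3 : (44 * (k : ℝ) + 8 * k ^ 2 + 264 * k ^ 3) / P ^ 2 ≤ 1 / P := by
        rw [div_le_div_iff₀ (by positivity) hP0]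
        have : 44 * (k : ℝ) + 8 * k ^ 2 + 264 * k ^ 3 ≤ P := by linarith
        nlinarith
      have e4 : 1 / P ≤ Real.exp (-(k / 4)) := by
        rw [Real.exp_neg, one_div]
        refine inv_anti₀ (Real.exp_pos _) (le_trans (Real.exp_le_exp.2 ?_) hexp)
        linarith
      linarith)
    (by
      rw [hM₁, hlm2, show 2 * ((k : ℝ) / 4) = k / 2 by ring]
      nlinarith)
  rw [hQ] at h
  refine h.trans ?_
  have hκ0 : 0 < κ := by linarith
  have e1 : 6 / (κ ^ 4 / 2) ^ 3 * (64 * κ) ^ 2 * (5 / 2) = 491520 * (1 / κ ^ 10) := by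
    field_simp; ring
  have e2 : 1 / (k : ℝ) ^ 2 ≤ 1 / κ ^ 10 := by
    rw [← hκk, ← pow_mul]
    exact one_div_le_one_div_of_le (by positivity) (pow_le_pow_right₀ hκ (by norm_num))
  have e3 : (P ^ 5 + 2 * (11 * (k : ℝ)) + 6) * (11 * k) ^ 2 * (5 / 2) ≤ t * (1 / (k : ℝ) ^ 2) := by
    rw [mul_one_div, le_div_iff₀ (by positivity)]
    have f1 : P ^ 5 + 2 * (11 * (k : ℝ)) + 6 ≤ 2 * P ^ 5 := by linarith
    calc (P ^ 5 + 2 * (11 * (k : ℝ)) + 6) * (11 * k) ^ 2 * (5 / 2) * k ^ 2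
        ≤ 2 * P ^ 5 * (11 * k) ^ 2 * (5 / 2) * k ^ 2 := by gcongr
      _ = P ^ 5 * (605 * k ^ 4) := by ring
      _ ≤ P ^ 5 * P ^ 5 := by gcongr; linarith
      _ = P ^ 10 := by ring
      _ ≤ t := htP
  have e4 := mul_le_mul_of_nonneg_left e2 ht0
  have e5 : 0 ≤ t * (1 / κ ^ 10) := by positivity
  rw [e1, show 10 ^ 8 * t / κ ^ 10 = 10 ^ 8 * (t * (1 / κ ^ 10)) by ring]
  nlinarith

theorem err_bound : ∀ᶠ j : ℕ in atTop, ∀ t : ℝ, 2 ^ j ≤ t → t < 2 ^ (j + 1) →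
    |root.err t| ≤ 10 ^ 11 * (1 / (j : ℝ) ^ (5 / 4 : ℝ)) * 2 ^ j := by
  obtain ⟨k₀, hk₀⟩ := eventually_atTop.1 master
  filter_upwards [eventually_ge_atTop (10 * k₀ + 120)] with j hj t ht1 ht2
  have hk : 12 ≤ j / 10 := by omega
  have hk' : (12 : ℝ) ≤ (j / 10 : ℕ) := by exact_mod_cast hk
  have hj0 : (0 : ℝ) < j := by exact_mod_cast (show 0 < j by omega)
  have h := err_bound_k (j := j) hk (hk₀ _ (by omega)) (by omega) (by omega)
    (κ := ((j / 10 : ℕ) : ℝ) ^ (1 / 8 : ℝ)) (Real.one_le_rpow (by linarith) (by norm_num))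
    (by rw [← Real.rpow_natCast, ← Real.rpow_mul (by positivity)]; norm_num) ht1 ht2
  refine h.trans ?_
  have e1 : (((j / 10 : ℕ) : ℝ) ^ (1 / 8 : ℝ)) ^ 10 = ((j / 10 : ℕ) : ℝ) ^ (5 / 4 : ℝ) := by
    rw [← Real.rpow_natCast, ← Real.rpow_mul (by positivity)]; norm_num
  have e2 : (j : ℝ) ≤ 20 * (j / 10 : ℕ) := by exact_mod_cast (show j ≤ 20 * (j / 10) by omega)
  have e3 : (j : ℝ) ^ (5 / 4 : ℝ) ≤ 400 * ((j / 10 : ℕ) : ℝ) ^ (5 / 4 : ℝ) := by
    refine (Real.rpow_le_rpow hj0.le e2 (by norm_num)).trans ?_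
    rw [Real.mul_rpow (by norm_num) (by positivity)]
    gcongr
    calc (20 : ℝ) ^ (5 / 4 : ℝ) ≤ 20 ^ (2 : ℝ) :=
          Real.rpow_le_rpow_of_exponent_le (by norm_num) (by norm_num)
      _ = 400 := by norm_num
  have e4 : 0 < (j : ℝ) ^ (5 / 4 : ℝ) := Real.rpow_pos_of_pos hj0 _
  have e5 : 0 < ((j / 10 : ℕ) : ℝ) ^ (5 / 4 : ℝ) := Real.rpow_pos_of_pos (by linarith) _
  rw [e1, mul_one_div, div_mul_eq_mul_div, div_le_div_iff₀ e5 e4]
  rw [pow_succ] at ht2
  calc 10 ^ 8 * t * (j : ℝ) ^ (5 / 4 : ℝ)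
      ≤ 10 ^ 8 * (2 ^ j * 2) * (400 * ((j / 10 : ℕ) : ℝ) ^ (5 / 4 : ℝ)) := by gcongr
    _ ≤ _ := by
      have : 0 < 2 ^ j * ((j / 10 : ℕ) : ℝ) ^ (5 / 4 : ℝ) := by positivity
      nlinarith

end Pool.Agent.MP_30e119_nt

end MrgPart1

-- ======== part 2: formerly Pool.Agent.MP_30e119_nt.Bij
section MrgPart2

/-! The Markov tree enumerates the strictly increasing Markov triples. -/

set_option autoImplicit false

namespace Pool.Agent.MP_30e119_nt

/-- Strictly increasing Markov triples. -/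
abbrev TStar := {t : ℕ × ℕ × ℕ // 0 < t.1 ∧ t.1 < t.2.1 ∧ t.2.1 < t.2.2 ∧
  t.1 ^ 2 + t.2.1 ^ 2 + t.2.2 ^ 2 = 3 * t.1 * t.2.1 * t.2.2}

namespace Node

/-- The sorted triple of a node. -/
def srt (m : Node) : ℕ × ℕ × ℕ := (min m.a m.b, max m.a m.b, m.c)

theorem srt_mem (m : Node) : 0 < m.srt.1 ∧ m.srt.1 < m.srt.2.1 ∧ m.srt.2.1 < m.srt.2.2 ∧
    m.srt.1 ^ 2 + m.srt.2.1 ^ 2 + m.srt.2.2 ^ 2 = 3 * m.srt.1 * m.srt.2.1 * m.srt.2.2 := by
  have h1 := m.ha; have h2 := m.hb; have h3 := m.hne; have h4 := m.two_a; have h5 := m.two_b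
  have h6 := m.eqn
  simp only [srt]
  refine ⟨by omega, by omega, by omega, ?_⟩
  rcases le_total m.a m.b with h | h
  · rw [min_eq_left h, max_eq_right h]; exact h6
  · rw [min_eq_right h, max_eq_left h]; linarith

theorem srt_L (m : Node) : m.L.srt = (m.a, m.c, 3 * m.a * m.c - m.b) := by
  have h4 := m.two_a
  simp only [srt, L]
  rw [min_eq_left (by omega), max_eq_right (by omega)]

theorem srt_R (m : Node) : m.R.srt = (m.b, m.c, 3 * m.b * m.c - m.a) := by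
  have h4 := m.two_b
  simp only [srt, R]
  rw [min_eq_right (by omega), max_eq_left (by omega)]

theorem desc_snoc (l : List Bool) (b : Bool) : ∀ n : Node,
    n.desc (l ++ [b]) = if b then (n.desc l).R else (n.desc l).L := by
  induction l with
  | nil => intro n; cases b <;> rfl
  | cons c l ih => intro n; cases c <;> exact ih _

theorem srt_inj (l : List Bool) : ∀ l' : List Bool,
    (root.desc l).srt = (root.desc l').srt → l = l' := by
  have hbig : ∀ (l : List Bool) (b : Bool), (root.desc (l ++ [b])).srt ≠ root.srt := by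
    intro l b h
    have h1 : (root.desc (l ++ [b])).c = 5 := congrArg (fun t => t.2.2) h
    rw [desc_snoc] at h1
    have h2 := (root.desc l).L_c; have h3 := (root.desc l).R_c; have h4 := (root.desc l).five_le
    cases b <;> simp at h1 <;> omega
  induction l using List.reverseRecOn with
  | nil =>
    intro l' h
    induction l' using List.reverseRecOn with
    | nil => rfl
    | append_singleton l' b _ => exact absurd h.symm (hbig l' b)
  | append_singleton l b ih =>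
    intro l' h
    induction l' using List.reverseRecOn with
    | nil => exact absurd h (hbig l b)
    | append_singleton l' b' _ =>
      rw [desc_snoc, desc_snoc] at h
      have h1 := (root.desc l).cL_add; have h2 := (root.desc l).cR_add
      have h3 := (root.desc l').cL_add; have h4 := (root.desc l').cR_add
      have h5 := (root.desc l).hne
      have key : (root.desc l).srt = (root.desc l').srt := by
        cases b <;> cases b' <;>
          simp only [Bool.false_eq_true, if_false, if_true, srt_L, srt_R, Prod.mk.injEq] at h <;>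
          obtain ⟨e1, e2, e3⟩ := h
        · rw [e1, e2] at e3 h1
          simp only [srt, Prod.mk.injEq]; omega
        · rw [e1, e2] at e3 h1
          simp only [srt, Prod.mk.injEq]; omega
        · rw [e1, e2] at e3 h2
          simp only [srt, Prod.mk.injEq]; omega
        · rw [e1, e2] at e3 h2
          simp only [srt, Prod.mk.injEq]; omega
      obtain rfl := ih l' key
      cases b <;> cases b' <;>
        simp only [Bool.false_eq_true, if_false, if_true, srt_L, srt_R, Prod.mk.injEq] at h <;>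
        first | rfl | omega

theorem markov_eq {x y : ℕ} (hx : 0 < x) (hy : 0 < y)
    (h : x ^ 2 + x ^ 2 + y ^ 2 = 3 * x * x * y) : x = 1 ∧ y ≤ 2 := by
  have h1 : y < 3 * x * x := by
    by_contra hh
    nlinarith [not_lt.1 hh]
  obtain ⟨y', hy'⟩ := Nat.exists_eq_add_of_lt h1
  have h2 : y * (y' + 1) = 2 * x ^ 2 := by nlinarith
  rcases Nat.eq_zero_or_pos y' with h3 | h3
  · subst h3
    have : x = 1 := by nlinarith
    subst this
    omega
  · rcases Nat.lt_or_ge y 2 with h4 | h4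
    · have : y = 1 := by omega
      subst this
      exact ⟨by nlinarith, by norm_num⟩
    · nlinarith

theorem srt_surj (z : ℕ) : ∀ x y : ℕ, 0 < x → x < y → y < z →
    x ^ 2 + y ^ 2 + z ^ 2 = 3 * x * y * z → ∃ l, (root.desc l).srt = (x, y, z) := by
  induction z using Nat.strong_induction_on with
  | _ z ih =>
    intro x y hx hxy hyz h
    rcases Nat.lt_or_ge y 3 with hy | hy
    · obtain rfl : y = 2 := by omega
      obtain rfl : x = 1 := by omega
      have : z = 5 := by nlinarith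
      subst this
      exact ⟨[], rfl⟩
    · have h1 : z < 3 * x * y := by
        by_contra hh
        nlinarith [not_lt.1 hh]
      obtain ⟨w, hw⟩ := Nat.exists_eq_add_of_le h1.le
      have hw0 : 0 < w := by omega
      have h2 : z * w = x ^ 2 + y ^ 2 := by nlinarith
      have h3 : x ^ 2 + w ^ 2 + y ^ 2 = 3 * x * w * y := by nlinarith
      have h4 : w < y := by
        by_contra hh
        obtain ⟨d, rfl⟩ := Nat.exists_eq_add_of_le (not_lt.1 hh)
        obtain ⟨e, rfl⟩ := Nat.exists_eq_add_of_lt hyz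
        have e1 : 3 * y * y ≤ 3 * x * y * y := by nlinarith
        have e2 : x ^ 2 < y ^ 2 := by nlinarith
        nlinarith
      have h5 : w ≠ x := by
        rintro rfl
        have := (markov_eq hx (by omega) h3).2
        omega
      obtain ⟨l, hl⟩ : ∃ l, (root.desc l).srt = (min x w, max x w, y) := by
        refine ih y hyz _ _ (by omega) (by omega) (by omega) ?_
        rcases le_total x w with h | h
        · rw [min_eq_left h, max_eq_right h]; exact h3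
        · rw [min_eq_right h, max_eq_left h]; linarith
      simp only [srt, Prod.mk.injEq] at hl
      obtain ⟨e1, e2, e3⟩ := hl
      by_cases ha : (root.desc l).a = x
      · refine ⟨l ++ [false], ?_⟩
        have hb : (root.desc l).b = w := by omega
        rw [desc_snoc]
        simp only [Bool.false_eq_true, if_false, srt_L, ha, hb, e3, Prod.mk.injEq, true_and]
        omega
      · refine ⟨l ++ [true], ?_⟩
        have hb : (root.desc l).b = x := by omega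
        have ha' : (root.desc l).a = w := by omega
        rw [desc_snoc]
        simp only [if_true, srt_R, ha', hb, e3, Prod.mk.injEq, true_and]
        omega

end Node

/-- The enumeration of the strictly increasing Markov triples by paths. -/
noncomputable def treeEquiv : List Bool ≃ TStar :=
  Equiv.ofBijective (fun l => ⟨(root.desc l).srt, Node.srt_mem _⟩)
    ⟨fun l l' h => Node.srt_inj l l' (congrArg Subtype.val h), fun t => by
      obtain ⟨l, hl⟩ := Node.srt_surj _ _ _ t.2.1 t.2.2.1 t.2.2.2.1 t.2.2.2.2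
      exact ⟨l, Subtype.ext hl⟩⟩

theorem treeEquiv_val (l : List Bool) : (treeEquiv l).1 = (root.desc l).srt := rfl

theorem term_eq (m : Node) : (gg m.srt.1 + gg m.srt.2.1 - gg m.srt.2.2) /
    (gg m.srt.1 * gg m.srt.2.1 * gg m.srt.2.2) = m.zt := by
  simp only [Node.srt, Node.zt, Node.del, Node.A, Node.B, Node.G]
  rcases le_total m.a m.b with h | h
  · rw [min_eq_left h, max_eq_right h]
  · rw [min_eq_right h, max_eq_left h, add_comm (gg m.b), mul_comm (gg m.b)]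

theorem card_eq (N : ℕ) (hN : 2 ≤ N) :
    (((Finset.Icc 1 N ×ˢ Finset.Icc 1 N ×ˢ Finset.Icc 1 N).filter
        (fun t : ℕ × ℕ × ℕ => t.1 ≤ t.2.1 ∧ t.2.1 ≤ t.2.2 ∧
          t.1 ^ 2 + t.2.1 ^ 2 + t.2.2 ^ 2 = 3 * t.1 * t.2.1 * t.2.2)).card : ℝ) =
      2 + root.tot fun m => if m.c ≤ N then 1 else 0 := by
  classical
  let S := (Finset.Icc 1 N ×ˢ Finset.Icc 1 N ×ˢ Finset.Icc 1 N).filter
    (fun t : ℕ × ℕ × ℕ => t.1 < t.2.1 ∧ t.2.1 < t.2.2 ∧
      t.1 ^ 2 + t.2.1 ^ 2 + t.2.2 ^ 2 = 3 * t.1 * t.2.1 * t.2.2)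
  have hS : ∀ t : ℕ × ℕ × ℕ, t ∈ S ↔ (0 < t.1 ∧ t.1 < t.2.1 ∧ t.2.1 < t.2.2 ∧
      t.1 ^ 2 + t.2.1 ^ 2 + t.2.2 ^ 2 = 3 * t.1 * t.2.1 * t.2.2) ∧ t.2.2 ≤ N := by
    intro t
    simp only [S, Finset.mem_filter, Finset.mem_product, Finset.mem_Icc]
    constructor
    · rintro ⟨⟨h1, h2, h3⟩, h4, h5, h6⟩
      exact ⟨⟨h1.1, h4, h5, h6⟩, h3.2⟩
    · rintro ⟨⟨h1, h2, h3, h4⟩, h5⟩
      exact ⟨⟨⟨h1, by omega⟩, ⟨by omega, by omega⟩, by omega, h5⟩, h2, h3, h4⟩
  have h1 : (Finset.Icc 1 N ×ˢ Finset.Icc 1 N ×ˢ Finset.Icc 1 N).filter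
      (fun t : ℕ × ℕ × ℕ => t.1 ≤ t.2.1 ∧ t.2.1 ≤ t.2.2 ∧
        t.1 ^ 2 + t.2.1 ^ 2 + t.2.2 ^ 2 = 3 * t.1 * t.2.1 * t.2.2) =
      insert (1, 1, 1) (insert (1, 1, 2) S) := by
    ext ⟨x, y, z⟩
    rw [Finset.mem_insert, Finset.mem_insert, hS]
    simp only [Finset.mem_filter, Finset.mem_product, Finset.mem_Icc, Prod.mk.injEq]
    constructor
    · rintro ⟨⟨h1, h2, h3⟩, h4, h5, h6⟩
      rcases h4.lt_or_eq with h4 | rfl
      · rcases h5.lt_or_eq with h5 | rfl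
        · exact Or.inr (Or.inr ⟨⟨h1.1, h4, h5, h6⟩, h3.2⟩)
        · have := (Node.markov_eq (x := y) (y := x) h2.1 h1.1 (by linarith)).1
          omega
      · have := Node.markov_eq h1.1 h3.1 h6
        omega
    · rintro (⟨rfl, rfl, rfl⟩ | ⟨rfl, rfl, rfl⟩ | ⟨⟨h1, h2, h3, h4⟩, h5⟩)
      · exact ⟨by omega, by norm_num⟩
      · exact ⟨by omega, by norm_num⟩
      · exact ⟨by omega, h2.le, h3.le, h4⟩
  rw [h1, Finset.card_insert_of_notMem (by simp [hS]), Finset.card_insert_of_notMem (by simp [hS])]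
  have h2 : (root.tot fun m => if m.c ≤ N then (1 : ℝ) else 0) = S.card := by
    have e1 : (root.tot fun m => if m.c ≤ N then (1 : ℝ) else 0) =
        ∑' t : TStar, (if t.1.2.2 ≤ N then (1 : ℝ) else 0) :=
      treeEquiv.tsum_eq fun t : TStar => if t.1.2.2 ≤ N then (1 : ℝ) else 0
    have e2 := tsum_subtype {t : ℕ × ℕ × ℕ | 0 < t.1 ∧ t.1 < t.2.1 ∧ t.2.1 < t.2.2 ∧
      t.1 ^ 2 + t.2.1 ^ 2 + t.2.2 ^ 2 = 3 * t.1 * t.2.1 * t.2.2}
      (fun t => if t.2.2 ≤ N then (1 : ℝ) else 0)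
    rw [e1]
    refine e2.trans ?_
    rw [tsum_eq_sum (s := S), Finset.card_eq_sum_ones, Nat.cast_sum]
    · refine Finset.sum_congr rfl fun t ht => ?_
      rw [hS] at ht
      rw [Set.indicator_of_mem (by exact ht.1), if_pos ht.2, Nat.cast_one]
    · intro t ht
      rw [hS] at ht
      by_contra hne
      have e3 := Set.mem_of_indicator_ne_zero hne
      rw [Set.indicator_of_mem e3] at hne
      exact ht ⟨e3, by by_contra h; exact hne (if_neg h)⟩
  rw [h2]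
  push_cast
  ring

end Pool.Agent.MP_30e119_nt

end MrgPart2

-- ======== part 3: formerly Pool.Agent.MP_30e119_nt.Axer
section MrgPart3

/-! Moebius inversion with a small error term (Axer's theorem). -/

set_option autoImplicit false

open Finset Filter Topology Asymptotics

namespace Pool.Agent.MP_30e119_nt

/-- The Moebius function with real values. -/
noncomputable def mu (d : ℕ) : ℝ := ((ArithmeticFunction.moebius d : ℤ) : ℝ)

theorem abs_mu_le (d : ℕ) : |mu d| ≤ 1 := by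
  unfold mu
  exact_mod_cast ArithmeticFunction.abs_moebius_le_one

theorem sum_one_apply (N : ℕ) : ∑ n ∈ Ioc 0 N, (1 : ArithmeticFunction ℝ) n =
    if 1 ≤ N then 1 else 0 := by
  simp only [ArithmeticFunction.one_apply, sum_ite_eq', mem_Ioc]
  simp

theorem moeb_floor_nat (N X : ℕ) (h : X ≤ N) :
    ∑ d ∈ Ioc 0 N, mu d * ((X / d : ℕ) : ℝ) = if 1 ≤ X then 1 else 0 := by
  have h1 := ArithmeticFunction.sum_Ioc_mul_zeta_eq_sum
    (ArithmeticFunction.moebius : ArithmeticFunction ℝ) X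
  rw [ArithmeticFunction.coe_moebius_mul_coe_zeta, sum_one_apply] at h1
  rw [h1]
  symm
  refine sum_subset (Ioc_subset_Ioc_right h) fun d hd hd' => ?_
  rw [mem_Ioc] at hd hd'
  rw [Nat.div_eq_of_lt (by omega)]
  simp

theorem moeb_floor (x : ℝ) (N : ℕ) (h : ⌊x⌋₊ ≤ N) :
    ∑ d ∈ Ioc 0 N, mu d * (⌊x / d⌋₊ : ℝ) = if 1 ≤ x then 1 else 0 := by
  simp_rw [Nat.floor_div_natCast]
  rw [moeb_floor_nat N _ h]
  simp only [Nat.one_le_floor_iff]

/-- Truncated sums of the inverse squares. -/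
noncomputable def Z (t : ℝ) : ℝ := ∑ k ∈ Ioc 0 ⌊t⌋₊, 1 / (k : ℝ) ^ 2

theorem moeb_sq (L : ℝ) (hL : 1 ≤ L) :
    ∑ d ∈ Ioc 0 ⌊L⌋₊, mu d * ((L / d) ^ 2 * Z (L / d)) = L ^ 2 := by
  let f : ArithmeticFunction ℝ := ⟨fun n => mu n / (n : ℝ) ^ 2, by simp⟩
  let g : ArithmeticFunction ℝ := ⟨fun n => 1 / (n : ℝ) ^ 2, by simp⟩
  have hfg : f * g = 1 := by
    ext n
    have h1 := congrArg (fun F : ArithmeticFunction ℝ => F n)
      (ArithmeticFunction.coe_moebius_mul_coe_zeta (R := ℝ))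
    simp only [ArithmeticFunction.mul_apply] at h1 ⊢
    have h2 : ∑ x ∈ n.divisorsAntidiagonal, f x.1 * g x.2 =
        (∑ x ∈ n.divisorsAntidiagonal, (ArithmeticFunction.moebius : ArithmeticFunction ℝ) x.1 *
          (ArithmeticFunction.zeta : ArithmeticFunction ℝ) x.2) / (n : ℝ) ^ 2 := by
      rw [sum_div]
      refine sum_congr rfl fun x hx => ?_
      obtain ⟨hx1, hx2⟩ := Nat.mem_divisorsAntidiagonal.1 hx
      have hx3 : x.2 ≠ 0 := fun h0 => hx2 (by rw [← hx1, h0, mul_zero])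
      have hx4 : x.1 ≠ 0 := fun h0 => hx2 (by rw [← hx1, h0, zero_mul])
      rw [← hx1]
      simp only [f, g, ArithmeticFunction.coe_mk, mu, ArithmeticFunction.intCoe_apply,
        ArithmeticFunction.natCoe_apply, ArithmeticFunction.zeta_apply, hx3, if_false]
      push_cast
      field_simp
    rw [h2, h1]
    by_cases hn : n = 1
    · subst hn; simp
    · simp [hn]
  have h1 := ArithmeticFunction.sum_Ioc_mul_eq_sum_sum f g ⌊L⌋₊
  rw [hfg, sum_one_apply, if_pos ((Nat.one_le_floor_iff _).2 hL)] at h1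
  rw [← mul_one (L ^ 2), h1, mul_sum]
  refine sum_congr rfl fun d _ => ?_
  simp only [Z, Nat.floor_div_natCast, f, g, ArithmeticFunction.coe_mk]
  ring

theorem Z_mono : Monotone Z := fun _ _ h =>
  sum_le_sum_of_subset_of_nonneg (Ioc_subset_Ioc_right (Nat.floor_le_floor h))
    fun _ _ _ => by positivity

theorem Z_nonneg (t : ℝ) : 0 ≤ Z t := sum_nonneg fun _ _ => by positivity

theorem Z_est {t : ℝ} (ht : 2 ≤ t) : |t ^ 2 * Z t - Real.pi ^ 2 / 6 * t ^ 2 + t| ≤ 2 := by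
  set N := ⌊t⌋₊ with hN
  have hN1 : (N : ℝ) ≤ t := Nat.floor_le (by linarith)
  have hN2 : t < N + 1 := Nat.lt_floor_add_one t
  have hN3 : 1 ≤ N := (Nat.one_le_floor_iff _).2 (by linarith)
  have hN4 : (1 : ℝ) ≤ N := by exact_mod_cast hN3
  have hlim : Tendsto (fun n : ℕ => ∑ k ∈ Ioc 0 n, 1 / (k : ℝ) ^ 2) atTop
      (𝓝 (Real.pi ^ 2 / 6)) := by
    have h1 := (hasSum_zeta_two.tendsto_sum_nat).comp (tendsto_add_atTop_nat 1)
    refine h1.congr fun n => ?_
    simp only [Function.comp]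
    rw [range_eq_Ico, sum_eq_sum_Ico_succ_bot (by omega)]
    simp only [Nat.cast_zero, ne_eq, OfNat.ofNat_ne_zero, not_false_eq_true, zero_pow, div_zero,
      zero_add]
    rfl
  have hsplit : ∀ n, N ≤ n → ∑ k ∈ Ioc 0 n, 1 / (k : ℝ) ^ 2 =
      Z t + ∑ k ∈ Ioc N n, 1 / (k : ℝ) ^ 2 := fun n hn =>
    (sum_Ioc_consecutive _ (Nat.zero_le _) hn).symm
  have hup : Real.pi ^ 2 / 6 ≤ Z t + 1 / N := by
    refine le_of_tendsto hlim ?_
    filter_upwards [eventually_ge_atTop N] with n hn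
    rw [hsplit n hn]
    have h1 := sum_Ioc_inv_sq_le_sub (α := ℝ) (k := N) (by omega) hn
    simp only [one_div]
    have : (0 : ℝ) ≤ (n : ℝ)⁻¹ := by positivity
    linarith
  have hlo : Z t + 1 / (N + 1) ≤ Real.pi ^ 2 / 6 := by
    have h2 : ∀ n, N ≤ n → 1 / ((N : ℝ) + 1) - 1 / ((n : ℝ) + 1) ≤
        ∑ k ∈ Ioc N n, 1 / (k : ℝ) ^ 2 := by
      intro n hn
      induction n, hn using Nat.le_induction with
      | base => simp
      | succ n hn ih =>
        rw [sum_Ioc_succ_top hn]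
        have h3 : 1 / ((n : ℝ) + 1) - 1 / (((n + 1 : ℕ) : ℝ) + 1) ≤ 1 / ((n + 1 : ℕ) : ℝ) ^ 2 := by
          push_cast
          rw [div_sub_div _ _ (by positivity) (by positivity),
            div_le_div_iff₀ (by positivity) (by positivity)]
          nlinarith [Nat.cast_nonneg (α := ℝ) n]
        linarith
    have h4 : Tendsto (fun n : ℕ => Z t + (1 / ((N : ℝ) + 1) - 1 / ((n : ℝ) + 1))) atTop
        (𝓝 (Z t + (1 / ((N : ℝ) + 1) - 0))) :=
      tendsto_const_nhds.add (tendsto_const_nhds.sub tendsto_one_div_add_atTop_nhds_zero_nat)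
    rw [sub_zero] at h4
    refine le_of_tendsto_of_tendsto h4 hlim ?_
    filter_upwards [eventually_ge_atTop N] with n hn
    rw [hsplit n hn]
    linarith [h2 n hn]
  have h5 : t ^ 2 * (1 / N) ≤ t + 2 := by
    rw [mul_one_div, div_le_iff₀ (by linarith)]
    nlinarith
  have h6 : t - 1 ≤ t ^ 2 * (1 / (N + 1)) := by
    rw [mul_one_div, le_div_iff₀ (by linarith)]
    nlinarith
  have h7 := mul_le_mul_of_nonneg_left hup (sq_nonneg t)
  have h8 := mul_le_mul_of_nonneg_left hlo (sq_nonneg t)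
  rw [abs_le]
  constructor <;> nlinarith

theorem abel_ineq (m g : ℕ → ℝ) (a b : ℕ) (hab : a ≤ b) (B : ℝ)
    (hB : ∀ u, u ≤ b → |∑ d ∈ Ioc 0 u, m d| ≤ B) (hg : ∀ d, a ≤ d → g (d + 1) ≤ g d)
    (hg0 : ∀ d, 0 ≤ g d) : |∑ d ∈ Ioc a b, m d * g d| ≤ 2 * B * g a := by
  have hdiff : ∀ u, a ≤ u → u ≤ b → |∑ d ∈ Ioc a u, m d| ≤ 2 * B := by
    intro u hu hub
    have h1 := sum_Ioc_consecutive m (Nat.zero_le a) hu
    have h2 := abs_le.1 (hB u hub)
    have h3 := abs_le.1 (hB a hab)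
    rw [abs_le]; constructor <;> linarith
  have key : ∀ u, a ≤ u → u ≤ b →
      |∑ d ∈ Ioc a u, m d * g d - (∑ d ∈ Ioc a u, m d) * g u| ≤ 2 * B * (g a - g u) := by
    intro u hu
    induction u, hu using Nat.le_induction with
    | base => simp
    | succ u hu ih =>
      intro hub
      rw [sum_Ioc_succ_top hu, sum_Ioc_succ_top hu]
      have h1 := ih (by omega)
      have h2 : |(∑ d ∈ Ioc a u, m d) * (g u - g (u + 1))| ≤ 2 * B * (g u - g (u + 1)) := by
        rw [abs_mul, abs_of_nonneg (sub_nonneg.2 (hg u hu))]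
        exact mul_le_mul_of_nonneg_right (hdiff u hu (by omega)) (sub_nonneg.2 (hg u hu))
      have h3 := abs_le.1 h1
      have h4 := abs_le.1 h2
      rw [abs_le]; constructor <;> linarith
  have h1 := abs_le.1 (key b hab le_rfl)
  have h2 : |(∑ d ∈ Ioc a b, m d) * g b| ≤ 2 * B * g b := by
    rw [abs_mul, abs_of_nonneg (hg0 b)]
    exact mul_le_mul_of_nonneg_right (hdiff b hab le_rfl) (hg0 b)
  have h3 := abs_le.1 h2
  rw [abs_le]; constructor <;> linarith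

theorem mertens_max (ε : ℝ) (hε : 0 < ε) :
    ∀ᶠ L : ℝ in atTop, ∀ u : ℕ, u ≤ ⌊L⌋₊ → |∑ d ∈ Ioc 0 u, mu d| ≤ ε * L := by
  obtain ⟨N₀, hN₀⟩ := eventually_atTop.1
    (Pool.Agent.Lib.helper41.mertens_isLittleO.bound hε)
  filter_upwards [eventually_ge_atTop ((N₀ : ℝ) / ε), eventually_ge_atTop (0 : ℝ)] with L hL hL0 u hu
  rcases le_or_gt N₀ u with h | h
  · have h1 := hN₀ u h
    have h2 : (u : ℝ) ≤ L := (Nat.cast_le.2 hu).trans (Nat.floor_le hL0)
    rw [Real.norm_eq_abs, Real.norm_eq_abs, Nat.abs_cast] at h1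
    exact h1.trans (mul_le_mul_of_nonneg_left h2 hε.le)
  · refine (abs_sum_le_sum_abs _ _).trans ((sum_le_sum fun d _ => abs_mu_le d).trans ?_)
    rw [sum_const, Nat.card_Ioc, nsmul_eq_mul, mul_one]
    have h2 : (u : ℝ) ≤ N₀ := by exact_mod_cast h.le
    rw [div_le_iff₀ hε] at hL
    simp only [Nat.sub_zero]
    linarith

/-- The part of the Moebius sum with `L / d` bounded is small. -/
def Near (H : ℝ → ℝ) : Prop := ∀ K : ℕ,
  (fun L : ℝ => ∑ d ∈ Ioc ⌊L / 2 ^ K⌋₊ ⌊L⌋₊, mu d * H (L / d)) =o[atTop] fun L : ℝ => L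

theorem Near.add {H H' : ℝ → ℝ} (h : Near H) (h' : Near H') : Near fun t => H t + H' t := by
  intro K
  simpa only [mul_add, sum_add_distrib] using (h K).add (h' K)

theorem Near.const_mul {H : ℝ → ℝ} (h : Near H) (c : ℝ) : Near fun t => c * H t := by
  intro K
  refine ((h K).const_mul_left c).congr_left fun L => ?_
  rw [mul_sum]
  exact sum_congr rfl fun d _ => by ring

theorem near_of_monotone {G : ℝ → ℝ} (hG : ∀ s t, 0 ≤ s → s ≤ t → G s ≤ G t)
    (hG0 : ∀ t, 0 ≤ G t) : Near G := by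
  intro K
  refine IsLittleO.of_bound fun ε hε => ?_
  have hc : 0 < 2 * G (2 ^ K) + 1 := by linarith [hG0 (2 ^ K)]
  filter_upwards [mertens_max (ε / (2 * G (2 ^ K) + 1)) (by positivity),
    eventually_ge_atTop ((2 : ℝ) ^ K)] with L hL hLK
  have h2K : (1 : ℝ) ≤ 2 ^ K := one_le_pow₀ (by norm_num)
  have hL0 : 0 < L := by linarith
  have ha : 1 ≤ ⌊L / 2 ^ K⌋₊ :=
    (Nat.one_le_floor_iff _).2 ((one_le_div (by positivity)).2 hLK)
  have hab : ⌊L / 2 ^ K⌋₊ ≤ ⌊L⌋₊ := Nat.floor_le_floor (div_le_self hL0.le h2K)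
  have h1 := abel_ineq mu (fun d => G (min (L / d) (2 ^ K))) _ _ hab _ hL (fun d hd => by
    refine hG _ _ (le_min (by positivity) (by positivity)) (min_le_min_right _ ?_)
    have : (0 : ℝ) < d := by exact_mod_cast (show 0 < d by omega)
    push_cast
    gcongr
    linarith) fun d => hG0 _
  have h2 : ∑ d ∈ Ioc ⌊L / 2 ^ K⌋₊ ⌊L⌋₊, mu d * G (L / d) =
      ∑ d ∈ Ioc ⌊L / 2 ^ K⌋₊ ⌊L⌋₊, mu d * G (min (L / d) (2 ^ K)) := by
    refine sum_congr rfl fun d hd => ?_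
    have h3 : L / 2 ^ K < d := (Nat.floor_lt (by positivity)).1 (mem_Ioc.1 hd).1
    have h4 : (0 : ℝ) < d := lt_trans (by positivity) h3
    rw [min_eq_left]
    rw [div_le_iff₀ h4, mul_comm]
    exact ((div_lt_iff₀ (by positivity)).1 h3).le
  rw [h2, Real.norm_eq_abs, Real.norm_eq_abs, abs_of_pos hL0]
  refine h1.trans ?_
  have h5 : G (min (L / (⌊L / 2 ^ K⌋₊ : ℝ)) (2 ^ K)) ≤ G (2 ^ K) :=
    hG _ _ (le_min (by positivity) (by positivity)) (min_le_right _ _)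
  calc 2 * (ε / (2 * G (2 ^ K) + 1) * L) * G (min (L / (⌊L / 2 ^ K⌋₊ : ℝ)) (2 ^ K))
      ≤ 2 * (ε / (2 * G (2 ^ K) + 1) * L) * (G (2 ^ K) + 1 / 2) := by gcongr; linarith
    _ = ε * L := by field_simp

theorem axer {H : ℝ → ℝ} (h1 : Near H) (η : ℕ → ℝ) (hη : Summable η) (hη0 : ∀ j, 0 ≤ η j)
    (h2 : ∀ᶠ j : ℕ in atTop, ∀ t : ℝ, 2 ^ j ≤ t → t < 2 ^ (j + 1) → |H t| ≤ η j * 2 ^ j) :
    (fun L : ℝ => ∑ d ∈ Ioc 0 ⌊L⌋₊, mu d * H (L / d)) =o[atTop] fun L : ℝ => L := by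
  refine IsLittleO.of_bound fun ε hε => ?_
  obtain ⟨j₀, hj₀⟩ := eventually_atTop.1 h2
  obtain ⟨K, hK1, hK2⟩ := (((tendsto_sum_nat_add η).eventually
    (eventually_le_nhds (show (0 : ℝ) < ε / 2 by positivity))).and (eventually_ge_atTop j₀)).exists
  filter_upwards [(h1 K).bound (show 0 < ε / 2 by positivity), eventually_gt_atTop (0 : ℝ)]
    with L hL hL0
  have h2K : (1 : ℝ) ≤ 2 ^ K := one_le_pow₀ (by norm_num)
  have hab : ⌊L / 2 ^ K⌋₊ ≤ ⌊L⌋₊ := Nat.floor_le_floor (div_le_self hL0.le h2K)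
  have key : ∀ J : ℕ, ∑ d ∈ Ioc ⌊L / 2 ^ (J + K)⌋₊ ⌊L / 2 ^ K⌋₊, |H (L / d)| ≤
      L * ∑ i ∈ range J, η (i + K) := by
    intro J
    induction J with
    | zero => simp
    | succ J ih =>
      have h3 : ⌊L / 2 ^ (J + 1 + K)⌋₊ ≤ ⌊L / 2 ^ (J + K)⌋₊ :=
        Nat.floor_le_floor (by gcongr <;> [norm_num; omega])
      have h4 : ⌊L / 2 ^ (J + K)⌋₊ ≤ ⌊L / 2 ^ K⌋₊ :=
        Nat.floor_le_floor (by gcongr <;> [norm_num; omega])
      rw [← sum_Ioc_consecutive _ h3 h4, sum_range_succ, mul_add]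
      have h5 : ∀ d ∈ Ioc ⌊L / 2 ^ (J + 1 + K)⌋₊ ⌊L / 2 ^ (J + K)⌋₊,
          |H (L / d)| ≤ η (J + K) * 2 ^ (J + K) := by
        intro d hd
        have h6 : L / 2 ^ (J + 1 + K) < d := (Nat.floor_lt (by positivity)).1 (mem_Ioc.1 hd).1
        have h7 : (d : ℝ) ≤ L / 2 ^ (J + K) := (Nat.le_floor_iff (by positivity)).1 (mem_Ioc.1 hd).2
        have h8 : (0 : ℝ) < d := lt_trans (by positivity) h6
        refine hj₀ _ (by omega) _ ?_ ?_
        · rw [le_div_iff₀ h8, mul_comm]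
          exact (le_div_iff₀ (by positivity)).1 h7
        · rw [div_lt_iff₀ h8, mul_comm, show J + K + 1 = J + 1 + K by ring]
          exact (div_lt_iff₀ (by positivity)).1 h6
      have h9 := sum_le_card_nsmul _ _ _ h5
      rw [Nat.card_Ioc, nsmul_eq_mul] at h9
      have h10 : ((⌊L / 2 ^ (J + K)⌋₊ - ⌊L / 2 ^ (J + 1 + K)⌋₊ : ℕ) : ℝ) ≤ L / 2 ^ (J + K) :=
        (Nat.cast_le.2 (Nat.sub_le _ _)).trans (Nat.floor_le (by positivity))
      have h11 : ((⌊L / 2 ^ (J + K)⌋₊ - ⌊L / 2 ^ (J + 1 + K)⌋₊ : ℕ) : ℝ) *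
          (η (J + K) * 2 ^ (J + K)) ≤ L / 2 ^ (J + K) * (η (J + K) * 2 ^ (J + K)) :=
        mul_le_mul_of_nonneg_right h10 (mul_nonneg (hη0 _) (by positivity))
      have h12 : L / 2 ^ (J + K) * (η (J + K) * 2 ^ (J + K)) = L * η (J + K) := by field_simp
      linarith
  obtain ⟨J, hJ⟩ := pow_unbounded_of_one_lt L (show (1 : ℝ) < 2 by norm_num)
  have hz : ⌊L / 2 ^ (J + K)⌋₊ = 0 := by
    rw [Nat.floor_eq_zero, div_lt_one (by positivity)]
    exact hJ.trans_le (pow_le_pow_right₀ (by norm_num) (by omega))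
  have h3 := key J
  rw [hz] at h3
  have h4 : ∑ i ∈ range J, η (i + K) ≤ ε / 2 :=
    (((summable_nat_add_iff K).2 hη).sum_le_tsum _ fun i _ => hη0 _).trans hK1
  have h5 : |∑ d ∈ Ioc 0 ⌊L / 2 ^ K⌋₊, mu d * H (L / d)| ≤ L * (ε / 2) := by
    refine (abs_sum_le_sum_abs _ _).trans ((sum_le_sum fun d _ => ?_).trans
      (h3.trans (mul_le_mul_of_nonneg_left h4 hL0.le)))
    rw [abs_mul]
    exact mul_le_of_le_one_left (abs_nonneg _) (abs_mu_le d)
  rw [← sum_Ioc_consecutive _ (Nat.zero_le _) hab]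
  rw [Real.norm_eq_abs, Real.norm_eq_abs, abs_of_pos hL0] at hL ⊢
  refine (abs_add_le _ _).trans ?_
  linarith

end Pool.Agent.MP_30e119_nt

end MrgPart3

-- ======== part 4: formerly Pool.Agent.MP_30e119_nt.Final
section MrgPart4

/-! The count of primitive vectors with an error term of smaller order than the length. -/

set_option autoImplicit false

open Finset Filter Topology Asymptotics

namespace Pool.Agent.MP_30e119_nt

/-- The number of vertices of the tree of length at most `L`. -/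
noncomputable def P (L : ℝ) : ℝ := root.tot fun m => if m.G ≤ L then 1 else 0

/-- Zagier's constant. -/
noncomputable def CC : ℝ := 6 / Real.pi ^ 2 * root.ar

theorem P_eq {L : ℝ} (hL : 0 ≤ L) : ∑ d ∈ Ioc 0 ⌊L⌋₊, mu d * root.cnt (L / d) = P L := by
  unfold P Node.cnt Node.tot
  simp_rw [← tsum_mul_left]
  rw [← Summable.tsum_finsetSum fun (d : ℕ) _ =>
    (root.cnt_pot (show 0 ≤ L / (d : ℝ) by positivity)).1.mul_left (mu d)]
  refine tsum_congr fun l => ?_
  have hG := (root.desc l).G_pos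
  have h := moeb_floor (L / (root.desc l).G) ⌊L⌋₊
    (Nat.floor_le_floor (div_le_self hL (root.desc l).G_ge))
  simp only [one_le_div hG] at h
  rw [← h]
  exact sum_congr rfl fun d _ => by rw [div_right_comm]

theorem cnt_mono (s t : ℝ) (hs : 0 ≤ s) (h : s ≤ t) : root.cnt s ≤ root.cnt t :=
  (root.cnt_pot hs).1.tsum_le_tsum (fun l => Nat.cast_le.2 (Nat.floor_le_floor (by
    have := (root.desc l).G_pos; gcongr))) (root.cnt_pot (hs.trans h)).1

theorem P_est : (fun L => P L - CC * L ^ 2) =o[atTop] fun L : ℝ => L := by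
  obtain ⟨β, hβ⟩ : ∃ β, β = CC - (1 / (2 * root.A) + 1 / (2 * root.B)) := ⟨_, rfl⟩
  have hnear : Near fun t => root.cnt t + -CC * (t ^ 2 * Z t) + -β * (⌊t⌋₊ : ℝ) := by
    refine ((near_of_monotone cnt_mono fun t => ?_).add
      ((near_of_monotone (fun s t hs h => ?_) fun t => ?_).const_mul _)).add
      ((near_of_monotone (fun s t _ h => ?_) fun t => ?_).const_mul _)
    · exact Node.tot_nonneg (fun _ => Nat.cast_nonneg _) _
    · exact mul_le_mul (by gcongr) (Z_mono h) (Z_nonneg _) (by positivity)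
    · exact mul_nonneg (by positivity) (Z_nonneg _)
    · exact Nat.cast_le.2 (Nat.floor_le_floor h)
    · exact Nat.cast_nonneg _
  have hsum : Summable fun j : ℕ =>
      10 ^ 11 * (1 / (j : ℝ) ^ (5 / 4 : ℝ)) + (2 * |CC| + |β|) * (1 / 2 : ℝ) ^ j :=
    ((Real.summable_one_div_nat_rpow.2 (by norm_num)).mul_left _).add
      (summable_geometric_two.mul_left _)
  have h := axer hnear _ hsum (fun j => by positivity) (by
    filter_upwards [err_bound, eventually_ge_atTop 1] with j hj hj1 t ht1 ht2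
    have h2 : (2 : ℝ) ≤ t := le_trans (by
      calc (2 : ℝ) = 2 ^ 1 := by norm_num
        _ ≤ 2 ^ j := pow_le_pow_right₀ (by norm_num) hj1) ht1
    have e1 := hj t ht1 ht2
    have e2 := Z_est h2
    have e3 : |t - (⌊t⌋₊ : ℝ)| ≤ 1 := by
      have := Nat.floor_le (show 0 ≤ t by linarith)
      have := Nat.lt_floor_add_one t
      rw [abs_le]; constructor <;> linarith
    have e4 : root.cnt t + -CC * (t ^ 2 * Z t) + -β * (⌊t⌋₊ : ℝ) =
        root.err t + -CC * (t ^ 2 * Z t - Real.pi ^ 2 / 6 * t ^ 2 + t) + β * (t - ⌊t⌋₊) := by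
      have e5 : root.ar = CC * (Real.pi ^ 2 / 6) := by
        unfold CC; have := Real.pi_pos; field_simp
      unfold Node.err
      rw [e5, hβ]
      ring
    rw [e4]
    refine (abs_add_three _ _ _).trans ?_
    rw [abs_mul, abs_mul, abs_neg, add_mul, mul_assoc (2 * |CC| + |β|), ← mul_pow]
    have e6 := mul_le_mul_of_nonneg_left e2 (abs_nonneg CC)
    have e7 := mul_le_mul_of_nonneg_left e3 (abs_nonneg β)
    norm_num at e1 ⊢
    linarith)
  have hc : (fun _ : ℝ => β) =o[atTop] fun L : ℝ => L := isLittleO_const_id_atTop β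
  refine (h.add hc).congr' ?_ EventuallyEq.rfl
  filter_upwards [eventually_ge_atTop (1 : ℝ)] with L hL
  have e1 := P_eq (show 0 ≤ L by linarith)
  have e2 := moeb_sq L hL
  have e3 := moeb_floor L _ le_rfl
  rw [if_pos hL] at e3
  have e4 : ∑ d ∈ Ioc 0 ⌊L⌋₊, mu d *
      (root.cnt (L / d) + -CC * ((L / d) ^ 2 * Z (L / d)) + -β * (⌊L / d⌋₊ : ℝ)) =
      ∑ d ∈ Ioc 0 ⌊L⌋₊, mu d * root.cnt (L / d) +
        -CC * ∑ d ∈ Ioc 0 ⌊L⌋₊, mu d * ((L / d) ^ 2 * Z (L / d)) +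
        -β * ∑ d ∈ Ioc 0 ⌊L⌋₊, mu d * (⌊L / d⌋₊ : ℝ) := by
    rw [mul_sum, mul_sum, ← sum_add_distrib, ← sum_add_distrib]
    exact sum_congr rfl fun d _ => by ring
  rw [e4, e1, e2, e3]
  ring

theorem summable_term : Summable fun t : TStar =>
    (gg t.1.1 + gg t.1.2.1 - gg t.1.2.2) / (gg t.1.1 * gg t.1.2.1 * gg t.1.2.2) := by
  refine treeEquiv.summable_iff.1 (root.zt_pot.1.congr fun l => ?_)
  exact (term_eq (root.desc l)).symm

theorem CC_eq : CC = 3 / Real.pi ^ 2 * (1 / (gg 1 * gg 2) + ∑' t : TStar,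
    (gg t.1.1 + gg t.1.2.1 - gg t.1.2.2) / (gg t.1.1 * gg t.1.2.1 * gg t.1.2.2)) := by
  have h1 : (∑' t : TStar,
      (gg t.1.1 + gg t.1.2.1 - gg t.1.2.2) / (gg t.1.1 * gg t.1.2.1 * gg t.1.2.2)) =
      root.tot Node.zt := by
    rw [← treeEquiv.tsum_eq]
    exact tsum_congr fun l => term_eq (root.desc l)
  have h2 : root.wt = 1 / (gg 1 * gg 2) := by
    simp only [Node.wt, Node.A, Node.B, root, Nat.cast_one, Nat.cast_ofNat]
  rw [h1, ← h2]
  unfold CC Node.ar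
  ring

theorem main_est (N : ℝ → ℝ) (hN : ∀ n : ℝ, N n =
      (((Finset.Icc 1 ⌊n⌋₊ ×ˢ Finset.Icc 1 ⌊n⌋₊ ×ˢ Finset.Icc 1 ⌊n⌋₊).filter
        (fun t : ℕ × ℕ × ℕ => t.1 ≤ t.2.1 ∧ t.2.1 ≤ t.2.2 ∧
          t.1 ^ 2 + t.2.1 ^ 2 + t.2.2 ^ 2 = 3 * t.1 * t.2.1 * t.2.2)).card : ℝ)) :
    (fun n : ℝ => N n - CC * (Real.log (3 * n)) ^ 2) =o[atTop] fun n : ℝ => Real.log n := by
  have hlog : Tendsto Real.log atTop atTop := Real.tendsto_log_atTop
  have hg : Tendsto gg atTop atTop := tendsto_atTop_mono' _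
    (by filter_upwards [eventually_ge_atTop (1 : ℝ)] with n hn using log_le_gg hn) hlog
  have h3 : ∀ n : ℝ, 3 ≤ n → Real.log (3 * n) ≤ 2 * Real.log n := by
    intro n hn
    rw [Real.log_mul (by norm_num) (by linarith)]
    linarith [Real.log_le_log (by norm_num) hn]
  have hO : gg =O[atTop] fun n : ℝ => Real.log n := by
    refine IsBigO.of_bound 2 ?_
    filter_upwards [eventually_ge_atTop (3 : ℝ)] with n hn
    rw [Real.norm_eq_abs, Real.norm_eq_abs, abs_of_pos (gg_pos (by linarith)),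
      abs_of_nonneg (Real.log_nonneg (by linarith))]
    exact (gg_le_log (by linarith)).trans (h3 n hn)
  have h1 : (fun n => P (gg n) - CC * gg n ^ 2) =o[atTop] fun n : ℝ => Real.log n :=
    (P_est.comp_tendsto hg).trans_isBigO hO
  have h2 : (fun _ : ℝ => (2 : ℝ)) =o[atTop] fun n : ℝ => Real.log n :=
    (isLittleO_const_id_atTop (2 : ℝ)).comp_tendsto hlog
  have h4 : (fun n => Real.log (3 * n) ^ 2 - gg n ^ 2) =o[atTop] fun n : ℝ => Real.log n := by
    refine IsLittleO.of_bound fun ε hε => ?_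
    filter_upwards [eventually_ge_atTop (3 : ℝ), eventually_ge_atTop (4 / ε)] with n hn hn'
    have e1 := log_sub_gg (show 1 ≤ n by linarith)
    have e2 := gg_le_log (show 1 ≤ n by linarith)
    have e3 := gg_pos (show 1 ≤ n by linarith)
    have e4 := h3 n hn
    have e5 := Real.log_nonneg (show 1 ≤ n by linarith)
    have e6 : 1 / n * 4 ≤ ε := by
      rw [div_le_iff₀ hε] at hn'
      rw [div_mul_eq_mul_div, div_le_iff₀ (by linarith)]
      linarith
    rw [Real.norm_eq_abs, Real.norm_eq_abs, abs_of_nonneg e5, sq_sub_sq,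
      abs_of_nonneg (mul_nonneg (by linarith) (by linarith))]
    calc (Real.log (3 * n) + gg n) * (Real.log (3 * n) - gg n)
        ≤ (4 * Real.log n) * (1 / n) := mul_le_mul (by linarith) e1 (by linarith) (by linarith)
      _ = (1 / n * 4) * Real.log n := by ring
      _ ≤ ε * Real.log n := mul_le_mul_of_nonneg_right e6 e5
  refine ((h2.add h1).sub (h4.const_mul_left CC)).congr' ?_ EventuallyEq.rfl
  filter_upwards [eventually_ge_atTop (2 : ℝ)] with n hn
  have e1 : P (gg n) = root.tot fun m => if m.c ≤ ⌊n⌋₊ then 1 else 0 := by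
    unfold P
    congr 1
    funext m
    simp only [Node.G, gg_le_iff m.rc1 (show 1 ≤ n by linarith),
      Nat.le_floor_iff (show 0 ≤ n by linarith)]
  rw [hN, card_eq _ (Nat.le_floor (by exact_mod_cast hn)), e1]
  ring

end Pool.Agent.MP_30e119_nt

end MrgPart4

-- marker of a merged file
example : 731051 + 824727 = 731051 + 824727 := rfl
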